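import Mathlib

/-! Basic lemmas: affine substitutions in Lebesgue integrals and the slice lemma. -/

open MeasureTheory Set
open scoped ENNReal

namespace Pool.Agent.H39.Beer

/-- Euclidean space. -/
abbrev Eu (d : ℕ) := EuclideanSpace ℝ (Fin d)

variable {d : ℕ}

theorem lint_affine {c : ℝ} (hc : 0 < c) (b : Eu d) (f : Eu d → ℝ≥0∞) (hf : Measurable f) :
    ∫⁻ y, f (b + c • y) = ENNReal.ofReal ((c ^ d)⁻¹) * ∫⁻ y, f y := by
  have h1 : ∫⁻ y, f (b + c • y) = ∫⁻ y, (fun z => f (b + z)) y ∂(Measure.map (fun y : Eu d => c • y) volume) := by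
    rw [lintegral_map (show Measurable fun z => f (b + z) from hf.comp (measurable_const_add b))
      (measurable_const_smul c)]
  rw [h1, Measure.map_addHaar_smul volume hc.ne', lintegral_smul_measure,
    lintegral_add_left_eq_self, finrank_euclideanSpace_fin, abs_of_pos (by positivity)]
  rfl

theorem lint_up {β c : ℝ} (hβ : 0 < β) (hc : β ≤ c) (b : Eu d) (f : Eu d → ℝ≥0∞)
    (hf : Measurable f) :
    ∫⁻ y, f (b + c • y) ≤ ENNReal.ofReal ((β ^ d)⁻¹) * ∫⁻ y, f y := by
  rw [lint_affine (hβ.trans_le hc) b f hf]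
  gcongr

theorem lint_down {c : ℝ} (hc : 0 < c) (hc1 : c ≤ 1) (b : Eu d) (f : Eu d → ℝ≥0∞)
    (hf : Measurable f) :
    ∫⁻ y, f y ≤ ∫⁻ y, f (b + c • y) := by
  rw [lint_affine hc b f hf]
  calc ∫⁻ y, f y = 1 * ∫⁻ y, f y := (one_mul _).symm
    _ ≤ _ := by
      gcongr
      rw [← ENNReal.ofReal_one]
      apply ENNReal.ofReal_le_ofReal
      exact (one_le_inv₀ (by positivity)).2 (pow_le_one₀ hc.le hc1)

/-- Slice lemma. -/
theorem slice {W R : Type*} [MeasurableSpace W] [AddCommGroup W] [MeasurableAdd₂ W] [MeasurableNeg W]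
    [MeasurableSpace R] (vol : Measure W) [SFinite vol] [vol.IsAddRightInvariant] (rho : Measure R) [SFinite rho]
    {T Big : Set W} (hT : MeasurableSet T) (hBig : MeasurableSet Big) (hB0 : vol Big ≠ 0)
    (hB1 : vol Big ≠ ⊤)
    {Rg : Set R} (hRg : MeasurableSet Rg) (hR1 : rho Rg ≠ ⊤) {L : R → W} (hL : Measurable L)
    (hsub : ∀ r ∈ Rg, ∀ t ∈ T, t - L r ∈ Big) :
    ∃ t ∈ Big, rho Rg * vol T ≤ vol Big * rho (Rg ∩ {r | t + L r ∈ T}) := by
  have hmeas : MeasurableSet {p : W × R | p.1 + L p.2 ∈ T} :=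
    (measurable_fst.add (hL.comp measurable_snd)) hT
  have key : ∫⁻ t in Big, rho (Rg ∩ {r | t + L r ∈ T}) ∂vol = rho Rg * vol T := by
    have e1 : ∀ t, rho (Rg ∩ {r | t + L r ∈ T}) =
        ∫⁻ r in Rg, T.indicator (fun _ => (1:ℝ≥0∞)) (t + L r) ∂rho := by
      intro t
      have : (fun r => T.indicator (fun _ => (1:ℝ≥0∞)) (t + L r)) =
          {r | t + L r ∈ T}.indicator (fun _ => (1:ℝ≥0∞)) := by
        funext r; by_cases h : t + L r ∈ T <;> simp [h]
      rw [this, lintegral_indicator (show MeasurableSet {r | t + L r ∈ T} from (hL.const_add t) hT),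
        Measure.restrict_restrict (show MeasurableSet {r | t + L r ∈ T} from (hL.const_add t) hT)]
      simp [inter_comm]
    simp_rw [e1]
    rw [lintegral_lintegral_swap]
    · have e2 : ∀ r ∈ Rg, ∫⁻ t in Big, T.indicator (fun _ => (1:ℝ≥0∞)) (t + L r) ∂vol = vol T := by
        intro r hr
        have h1 : ∫⁻ t in Big, T.indicator (fun _ => (1:ℝ≥0∞)) (t + L r) ∂vol =
            ∫⁻ t, T.indicator (fun _ => (1:ℝ≥0∞)) (t + L r) ∂vol := by
          rw [← lintegral_indicator hBig]
          congr 1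
          funext t
          by_cases h : t + L r ∈ T
          · have : t ∈ Big := by simpa using hsub r hr _ h
            simp [h, this]
          · by_cases h' : t ∈ Big <;> simp [h, h']
        rw [h1, lintegral_add_right_eq_self (μ := vol) (fun t => T.indicator (fun _ => (1:ℝ≥0∞)) t) (L r)]
        simp [hT]
      rw [setLIntegral_congr_fun hRg e2]
      simp [mul_comm]
    · exact ((measurable_const.indicator hT).comp
        (measurable_fst.add (hL.comp measurable_snd))).aemeasurable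
  have hfin : ∫⁻ t in Big, rho (Rg ∩ {r | t + L r ∈ T}) ∂vol ≠ ⊤ := by
    have : ∫⁻ t in Big, rho (Rg ∩ {r | t + L r ∈ T}) ∂vol ≤ ∫⁻ t in Big, rho Rg ∂vol :=
      lintegral_mono fun t => measure_mono inter_subset_left
    refine ne_top_of_le_ne_top ?_ this
    simp only [lintegral_const, Measure.restrict_apply MeasurableSet.univ, univ_inter]
    exact ENNReal.mul_ne_top hR1 hB1
  obtain ⟨t, ht, h⟩ := exists_setLAverage_le hB0 hBig.nullMeasurableSet hfin
  refine ⟨t, ht, ?_⟩
  rw [setLAverage_eq, key] at h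
  calc rho Rg * vol T = vol Big * (rho Rg * vol T / vol Big) := by
        rw [ENNReal.mul_div_cancel hB0 hB1]
    _ ≤ _ := by gcongr

theorem pi_insert {n : ℕ} {α : Type} [MeasurableSpace α] (μ : Measure α) [SigmaFinite μ]
    (i : Fin (n + 1)) {s : Set (Fin (n + 1) → α)} (hs : MeasurableSet s) :
    Measure.pi (fun _ => μ) s =
      ∫⁻ r, μ {y | i.insertNth y r ∈ s} ∂(Measure.pi fun _ : Fin n => μ) := by
  have h := (measurePreserving_piFinSuccAbove (fun _ : Fin (n + 1) => μ) i).symm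
  rw [← h.measure_preimage hs.nullMeasurableSet,
    Measure.prod_apply_symm (h.measurable hs)]
  rfl

theorem pi_insert' {n : ℕ} {α : Type} [MeasurableSpace α] (μ : Measure α) [SigmaFinite μ]
    (i : Fin (n + 1)) {s : Set (Fin (n + 1) → α)} (hs : MeasurableSet s) :
    Measure.pi (fun _ => μ) s =
      ∫⁻ y, (Measure.pi fun _ : Fin n => μ) {r | i.insertNth y r ∈ s} ∂μ := by
  have h := (measurePreserving_piFinSuccAbove (fun _ : Fin (n + 1) => μ) i).symm
  rw [← h.measure_preimage hs.nullMeasurableSet,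
    Measure.prod_apply (h.measurable hs)]
  rfl

end Pool.Agent.H39.Beer
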