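import Pool.Agent.H39.Beer.Basic
import Pool.Graph.R_pool_sql_team_ae5b0c61.H57.DHJ4

/-! Density Hales-Jewett for measurable sets in Euclidean spaces. -/

open MeasureTheory Set Module
open scoped ENNReal

namespace Pool.Agent.H39.Beer

/-- Measure form of the density Hales-Jewett theorem. -/
theorem dhj_measure {A G : Type} [NormedAddCommGroup A] [NormedSpace ℝ A] [FiniteDimensional ℝ A]
    [MeasureSpace A] [BorelSpace A] [(volume : Measure A).IsAddHaarMeasure]
    [NormedAddCommGroup G] [NormedSpace ℝ G] [FiniteDimensional ℝ G]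
    [MeasureSpace G] [BorelSpace G] [(volume : Measure G).IsAddHaarMeasure]
    (Γ : Type) [Fintype Γ] [Nonempty Γ] {c C2 : ℝ} (hc : 0 < c) (hC2 : 0 < C2) :
    ∃ N : ℕ, ∃ η : ℝ, 0 < η ∧ ∃ c' : ℝ, 0 < c' ∧
    ∀ ψ : Γ → G → A, (∀ J, Measurable (ψ J)) → (∀ J g, ‖ψ J g‖ ≤ C2 * ‖g‖) →
    ∀ F : Set A, MeasurableSet F → F ⊆ Metric.closedBall 0 1 → ENNReal.ofReal c ≤ volume F →
    ∃ (p : Fin N → Option Γ) (l0 : Fin N) (a : A) (g : Fin N → G) (H : Set G),
      p l0 = none ∧ MeasurableSet H ∧ H ⊆ Metric.closedBall 0 η ∧ ENNReal.ofReal c' ≤ volume H ∧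
      ∀ h ∈ H, ∀ J, a + ∑ l, ψ ((p l).getD J) (g l + (Pi.single l0 h : Fin N → G) l) ∈ F := by
  classical
  set Ba : Set A := Metric.closedBall 0 2 with hBa
  have hBaf : volume Ba ≠ ⊤ := measure_closedBall_lt_top.ne
  have hBa0 : volume Ba ≠ 0 := (Metric.measure_closedBall_pos volume _ (by norm_num)).ne'
  have hBam : MeasurableSet Ba := Metric.isClosed_closedBall.measurableSet
  set δ0 : ℝ := c / (2 * (volume Ba).toReal) with hδ0
  have hBar : 0 < (volume Ba).toReal := ENNReal.toReal_pos hBa0 hBaf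
  have hδ00 : 0 < δ0 := by positivity
  obtain ⟨N, hN⟩ := Pool.Agent.H57.DHJ.density_hales_jewett Γ hδ00
  set η : ℝ := 1 / (N * C2 + 1) with hη
  have hη0 : 0 < η := by positivity
  set Bg : Set (Fin N → G) := Metric.closedBall 0 η with hBg
  have hBgf : volume Bg ≠ ⊤ := measure_closedBall_lt_top.ne
  have hBg0 : volume Bg ≠ 0 := (Metric.measure_closedBall_pos volume _ hη0).ne'
  have hBgm : MeasurableSet Bg := Metric.isClosed_closedBall.measurableSet
  set Rg : Set G := Metric.closedBall 0 η with hRg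
  have hRgf : volume Rg ≠ ⊤ := measure_closedBall_lt_top.ne
  have hRg0 : volume Rg ≠ 0 := (Metric.measure_closedBall_pos volume _ hη0).ne'
  have hRgm : MeasurableSet Rg := Metric.isClosed_closedBall.measurableSet
  set Big : Set (A × (Fin N → G)) := Metric.closedBall 0 2 ×ˢ Metric.closedBall 0 (2 * η) with hBig
  have hBigm : MeasurableSet Big :=
    Metric.isClosed_closedBall.measurableSet.prod Metric.isClosed_closedBall.measurableSet
  have hBigv : (volume : Measure (A × (Fin N → G))) Big =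
      volume Ba * volume (Metric.closedBall (0 : Fin N → G) (2 * η)) := by
    rw [hBig, Measure.volume_eq_prod, Measure.prod_prod]
  have hBigf : (volume : Measure (A × (Fin N → G))) Big ≠ ⊤ := by
    rw [hBigv]; exact ENNReal.mul_ne_top hBaf measure_closedBall_lt_top.ne
  have hBig0 : (volume : Measure (A × (Fin N → G))) Big ≠ 0 := by
    rw [hBigv]
    exact mul_ne_zero hBa0 (Metric.measure_closedBall_pos volume _ (by positivity)).ne'
  -- number of patterns
  set Q : ℝ≥0∞ := (Fintype.card (Fin N → Option Γ) : ℝ≥0∞) with hQ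
  have hQ0 : Q ≠ 0 := by
    rw [hQ]; exact_mod_cast Fintype.card_ne_zero
  have hQf : Q ≠ ⊤ := ENNReal.natCast_ne_top _
  set m : ℝ≥0∞ := volume Rg * (volume Bg * ENNReal.ofReal (c / 2) / Q) /
    (volume : Measure (A × (Fin N → G))) Big with hm
  have hmf : m ≠ ⊤ := by
    rw [hm]
    exact ENNReal.div_ne_top (ENNReal.mul_ne_top hRgf (ENNReal.div_ne_top
      (ENNReal.mul_ne_top hBgf ENNReal.ofReal_ne_top) hQ0)) hBig0
  have hm0 : m ≠ 0 := by
    rw [hm]
    refine (ENNReal.div_pos (mul_ne_zero hRg0 (ENNReal.div_pos (mul_ne_zero hBg0 ?_) hQf).ne')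
      hBigf).ne'
    simpa using hc
  refine ⟨N, η, hη0, m.toReal, ENNReal.toReal_pos hm0 hmf, ?_⟩
  intro ψ hψm hψ F hFm hF1 hFc
  -- words
  let ew : (Fin N → Γ) → A × (Fin N → G) → A := fun w q => q.1 + ∑ l, ψ (w l) (q.2 l)
  have hewm : ∀ w, Measurable (ew w) := by
    intro w
    refine measurable_fst.add (Finset.measurable_sum _ fun l _ => ?_)
    exact (hψm (w l)).comp ((measurable_pi_apply l).comp measurable_snd)
  have hsmall : ∀ (w : Fin N → Γ) (g : Fin N → G), g ∈ Bg → ‖∑ l, ψ (w l) (g l)‖ ≤ 1 := by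
    intro w g hg
    have hg' : ‖g‖ ≤ η := mem_closedBall_zero_iff.1 hg
    calc ‖∑ l, ψ (w l) (g l)‖ ≤ ∑ l, ‖ψ (w l) (g l)‖ := norm_sum_le _ _
      _ ≤ ∑ _l : Fin N, C2 * η := by
          refine Finset.sum_le_sum fun l _ => (hψ _ _).trans ?_
          gcongr
          exact (norm_le_pi_norm g l).trans hg'
      _ = N * C2 * η := by simp; ring
      _ ≤ 1 := by
          rw [hη, mul_one_div, div_le_one (by positivity)]
          linarith
  have hslice : ∀ w, volume Bg * volume F ≤
      volume ({q : A × (Fin N → G) | ew w q ∈ F} ∩ (Ba ×ˢ Bg)) := by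
    intro w
    have hms : MeasurableSet ({q : A × (Fin N → G) | ew w q ∈ F} ∩ (Ba ×ˢ Bg)) :=
      ((hewm w) hFm).inter (hBam.prod hBgm)
    rw [Measure.volume_eq_prod, Measure.prod_apply_symm hms]
    calc volume Bg * volume F = ∫⁻ _g in Bg, volume F := by simp [mul_comm]
      _ = ∫⁻ g, Bg.indicator (fun _ => volume F) g := (lintegral_indicator hBgm _).symm
      _ ≤ _ := by
        refine lintegral_mono fun g => ?_
        by_cases hg : g ∈ Bg
        · rw [indicator_of_mem hg]
          have h1 : (fun a => a + ∑ l, ψ (w l) (g l)) ⁻¹' F ⊆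
              (fun a => (a, g)) ⁻¹' ({q : A × (Fin N → G) | ew w q ∈ F} ∩ (Ba ×ˢ Bg)) := by
            intro a ha
            refine ⟨ha, ?_, hg⟩
            have h2 : ‖a + ∑ l, ψ (w l) (g l)‖ ≤ 1 := mem_closedBall_zero_iff.1 (hF1 ha)
            show a ∈ Metric.closedBall 0 2
            rw [mem_closedBall_zero_iff]
            calc ‖a‖ = ‖(a + ∑ l, ψ (w l) (g l)) - ∑ l, ψ (w l) (g l)‖ := by simp
              _ ≤ ‖a + ∑ l, ψ (w l) (g l)‖ + ‖∑ l, ψ (w l) (g l)‖ := norm_sub_le _ _
              _ ≤ 2 := by linarith [hsmall w g hg]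
          calc volume F = volume ((fun a => a + ∑ l, ψ (w l) (g l)) ⁻¹' F) :=
                (measure_preimage_add_right volume _ F).symm
            _ ≤ _ := measure_mono h1
        · rw [indicator_of_notMem hg]; exact bot_le
  -- patterns
  let Ap : (Fin N → Option Γ) → Set (A × (Fin N → G)) := fun p =>
    if (∃ l, p l = none) then
      {q | ∀ J, ew (fun l => (p l).getD J) q ∈ F} ∩ (Ba ×ˢ Bg) else ∅
  have hApm : ∀ p, MeasurableSet (Ap p) := by
    intro p
    simp only [Ap]
    split_ifs
    · refine MeasurableSet.inter ?_ (hBam.prod hBgm)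
      rw [show {q | ∀ J, ew (fun l => (p l).getD J) q ∈ F} =
        ⋂ J, {q | ew (fun l => (p l).getD J) q ∈ F} by ext; simp]
      exact MeasurableSet.iInter fun J => (hewm _) hFm
    · exact MeasurableSet.empty
  set n : ℝ≥0∞ := ((Fintype.card Γ : ℕ) : ℝ≥0∞) ^ N with hn
  have hn0 : n ≠ 0 := pow_ne_zero _ (by exact_mod_cast Fintype.card_ne_zero)
  have hnf : n ≠ ⊤ := ENNReal.pow_ne_top (ENNReal.natCast_ne_top _)
  have hcardw : ((Finset.univ : Finset (Fin N → Γ)).card : ℝ≥0∞) = n := by
    rw [Finset.card_univ, Fintype.card_fun, Fintype.card_fin, hn]; push_cast; rfl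
  have key : volume Bg * volume F ≤ volume (⋃ p, Ap p) + ENNReal.ofReal δ0 * (volume Ba * volume Bg) := by
    have h1 : n * (volume Bg * volume F) ≤
        ∑ w, volume ({q : A × (Fin N → G) | ew w q ∈ F} ∩ (Ba ×ˢ Bg)) := by
      calc n * (volume Bg * volume F) = ∑ _w : Fin N → Γ, volume Bg * volume F := by
            rw [Finset.sum_const, nsmul_eq_mul, hcardw]
        _ ≤ _ := Finset.sum_le_sum fun w _ => hslice w
    have h2 : ∑ w, volume ({q : A × (Fin N → G) | ew w q ∈ F} ∩ (Ba ×ˢ Bg)) =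
        ∫⁻ q in Ba ×ˢ Bg, ∑ w, ({q : A × (Fin N → G) | ew w q ∈ F}.indicator (fun _ => (1:ℝ≥0∞))) q := by
      have hws : ∀ w, MeasurableSet {q : A × (Fin N → G) | ew w q ∈ F} := fun w => (hewm w) hFm
      rw [lintegral_finsetSum _ fun w _ => (measurable_const.indicator (hws w))]
      refine Finset.sum_congr rfl fun w _ => ?_
      rw [lintegral_indicator_const (hws w), one_mul, Measure.restrict_apply (hws w)]
    have h3 : ∀ q ∈ Ba ×ˢ Bg, ∑ w, ({q : A × (Fin N → G) | ew w q ∈ F}.indicator
        (fun _ => (1:ℝ≥0∞))) q ≤ (⋃ p, Ap p).indicator (fun _ => n) q + ENNReal.ofReal δ0 * n := by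
      intro q hq
      have h4 : ∑ w, ({q : A × (Fin N → G) | ew w q ∈ F}.indicator (fun _ => (1:ℝ≥0∞))) q =
          ((Finset.univ.filter fun w => ew w q ∈ F).card : ℝ≥0∞) := by
        rw [Finset.card_filter]
        push_cast
        refine Finset.sum_congr rfl fun w _ => ?_
        simp [indicator]
      rw [h4]
      by_cases hqA : q ∈ ⋃ p, Ap p
      · rw [indicator_of_mem hqA]
        refine le_trans ?_ le_self_add
        rw [← hcardw]
        exact_mod_cast Finset.card_le_card (Finset.filter_subset _ _)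
      · rw [indicator_of_notMem hqA, zero_add]
        by_contra hcon
        push Not at hcon
        have h5 : δ0 * (Fintype.card Γ : ℝ) ^ Fintype.card (Fin N) ≤
            ((Finset.univ.filter fun w => ew w q ∈ F).card : ℝ) := by
          have h6 : ENNReal.ofReal (δ0 * (Fintype.card Γ : ℝ) ^ N) <
              ENNReal.ofReal ((Finset.univ.filter fun w => ew w q ∈ F).card : ℝ) := by
            rw [ENNReal.ofReal_mul hδ00.le, ENNReal.ofReal_natCast,
              ENNReal.ofReal_pow (by positivity), ENNReal.ofReal_natCast]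
            exact hcon
          rw [Fintype.card_fin]
          exact (ENNReal.lt_ofReal_iff_toReal_lt ENNReal.ofReal_ne_top).1 h6 |>.le.trans' (by
            rw [ENNReal.toReal_ofReal (by positivity)])
        obtain ⟨p, ⟨l, hl⟩, hp⟩ := hN (Fin N) (by simp) _ h5
        apply hqA
        refine mem_iUnion.2 ⟨p, ?_⟩
        simp only [Ap]
        rw [if_pos ⟨l, hl⟩]
        exact ⟨fun J => (Finset.mem_filter.1 (hp J)).2, hq⟩
    have h7 : n * (volume Bg * volume F) ≤ n * volume (⋃ p, Ap p) +
        ENNReal.ofReal δ0 * n * (volume Ba * volume Bg) := by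
      refine h1.trans (h2.le.trans ?_)
      calc _ ≤ ∫⁻ q in Ba ×ˢ Bg, ((⋃ p, Ap p).indicator (fun _ => n) q + ENNReal.ofReal δ0 * n) :=
            setLIntegral_mono' (hBam.prod hBgm) h3
        _ ≤ _ := by
            rw [lintegral_add_right _ measurable_const]
            gcongr
            · refine (setLIntegral_le_lintegral _ _).trans ?_
              rw [lintegral_indicator_const (MeasurableSet.iUnion hApm)]
            · rw [lintegral_const, Measure.restrict_apply MeasurableSet.univ, univ_inter,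
                Measure.volume_eq_prod, Measure.prod_prod]
    have h8 : n * volume (⋃ p, Ap p) + ENNReal.ofReal δ0 * n * (volume Ba * volume Bg) =
        n * (volume (⋃ p, Ap p) + ENNReal.ofReal δ0 * (volume Ba * volume Bg)) := by ring
    rw [h8] at h7
    exact (ENNReal.mul_le_mul_iff_right hn0 hnf).1 h7
  have hδBa : ENNReal.ofReal δ0 * (volume Ba * volume Bg) = ENNReal.ofReal (c / 2) * volume Bg := by
    rw [← mul_assoc]
    congr 1
    conv_lhs => rw [← ENNReal.ofReal_toReal hBaf]
    rw [← ENNReal.ofReal_mul hδ00.le]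
    congr 1
    rw [hδ0]; field_simp
  have hApU : volume Bg * ENNReal.ofReal (c / 2) ≤ volume (⋃ p, Ap p) := by
    rw [hδBa] at key
    have h1 : volume Bg * ENNReal.ofReal c ≤ volume (⋃ p, Ap p) + ENNReal.ofReal (c / 2) * volume Bg :=
      le_trans (by gcongr) key
    have h2 : ENNReal.ofReal c = ENNReal.ofReal (c / 2) + ENNReal.ofReal (c / 2) := by
      rw [← ENNReal.ofReal_add (by positivity) (by positivity)]; congr 1; ring
    rw [h2, mul_add, mul_comm (ENNReal.ofReal (c / 2)) (volume Bg)] at h1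
    exact (ENNReal.add_le_add_iff_right (ENNReal.mul_ne_top hBgf ENNReal.ofReal_ne_top)).1 h1
  obtain ⟨p, hp⟩ : ∃ p, volume Bg * ENNReal.ofReal (c / 2) / Q ≤ volume (Ap p) := by
    by_contra hcon
    push Not at hcon
    have h1 : volume (⋃ p, Ap p) < volume Bg * ENNReal.ofReal (c / 2) := by
      calc volume (⋃ p, Ap p) ≤ ∑ p, volume (Ap p) := by
            refine (measure_iUnion_le _).trans ?_
            rw [tsum_fintype]
        _ < ∑ _p : Fin N → Option Γ, volume Bg * ENNReal.ofReal (c / 2) / Q :=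
            ENNReal.sum_lt_sum_of_nonempty Finset.univ_nonempty fun p _ => hcon p
        _ = _ := by
            rw [Finset.sum_const, nsmul_eq_mul, Finset.card_univ, ← hQ,
              ENNReal.mul_div_cancel hQ0 hQf]
    exact absurd hApU (not_le.2 h1)
  have hpn : ∃ l, p l = none := by
    by_contra hcon
    simp only [Ap, if_neg hcon, measure_empty, nonpos_iff_eq_zero] at hp
    have : volume Bg * ENNReal.ofReal (c / 2) / Q ≠ 0 :=
      (ENNReal.div_pos (mul_ne_zero hBg0 (by simpa using hc)) hQf).ne'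
    exact this hp
  obtain ⟨l0, hl0⟩ := hpn
  have hApe : Ap p = {q | ∀ J, ew (fun l => (p l).getD J) q ∈ F} ∩ (Ba ×ˢ Bg) := by
    simp only [Ap]; rw [if_pos ⟨l0, hl0⟩]
  let L : G → A × (Fin N → G) := fun h => (0, Pi.single l0 h)
  have hLm : Measurable L := by
    refine measurable_const.prodMk (measurable_pi_lambda _ fun l => ?_)
    by_cases h : l = l0
    · subst h; simp only [Pi.single_eq_same]; exact measurable_id
    · simp only [Pi.single_eq_of_ne h]; exact measurable_const
  have hinv : (volume : Measure (A × (Fin N → G))).IsAddRightInvariant := by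
    rw [Measure.volume_eq_prod]
    infer_instance
  obtain ⟨q, -, hq⟩ := slice (volume : Measure (A × (Fin N → G))) (volume : Measure G) (hApm p)
    hBigm hBig0 hBigf hRgm hRgf hLm (fun r hr t ht => by
      rw [hApe] at ht
      have h1 : ‖t.1‖ ≤ 2 := mem_closedBall_zero_iff.1 ht.2.1
      have h2 : ‖t.2‖ ≤ η := mem_closedBall_zero_iff.1 ht.2.2
      have h3 : ‖r‖ ≤ η := mem_closedBall_zero_iff.1 hr
      refine ⟨?_, ?_⟩
      · show t.1 - 0 ∈ Metric.closedBall 0 2
        rw [sub_zero, mem_closedBall_zero_iff]; exact h1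
      · show t.2 - Pi.single l0 r ∈ Metric.closedBall 0 (2 * η)
        rw [mem_closedBall_zero_iff]
        have h4 : ‖(Pi.single l0 r : Fin N → G)‖ ≤ η := by
          rw [Pi.norm_single]; exact h3
        calc ‖t.2 - Pi.single l0 r‖ ≤ ‖t.2‖ + ‖(Pi.single l0 r : Fin N → G)‖ := norm_sub_le _ _
          _ ≤ 2 * η := by linarith)
  refine ⟨p, l0, q.1, q.2, Rg ∩ {r | q + L r ∈ Ap p}, hl0, ?_, inter_subset_left, ?_, ?_⟩
  · exact hRgm.inter ((show Measurable fun r => q + L r from hLm.const_add q) (hApm p))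
  · rw [ENNReal.ofReal_toReal hmf, hm, ENNReal.div_le_iff' hBig0 hBigf]
    exact le_trans (by gcongr) hq
  · intro h hh J
    have h1 : q + L h ∈ Ap p := hh.2
    rw [hApe] at h1
    have h2 := h1.1 J
    simp only [ew, L, Prod.fst_add, Prod.snd_add, add_zero, Pi.add_apply] at h2
    exact h2

end Pool.Agent.H39.Beer
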