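import Pool.Agent.H39.Beer.StepB

/-! Determinants of tuples of independent random points are not too small. -/

open MeasureTheory Set Module
open scoped ENNReal

namespace Pool.Agent.H39.Beer

variable {d : ℕ}

/-- The standard basis. -/
noncomputable def bs (d : ℕ) : Basis (Fin d) ℝ (Eu d) :=
  (EuclideanSpace.basisFun (Fin d) ℝ).toBasis

/-- The determinant of a `d`-tuple. -/
noncomputable def dt (y : Fin d → Eu d) : ℝ := (bs d).det y

/-- The linear map with given images of the standard basis. -/
noncomputable def tm (y : Fin d → Eu d) : Eu d →ₗ[ℝ] Eu d := (bs d).constr ℝ y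

theorem tm_apply (y : Fin d → Eu d) (x : Eu d) : tm y x = ∑ s, x s • y s := by
  rw [tm, Basis.constr_apply_fintype]
  rfl

theorem dt_bs : dt (fun s => bs d s) = 1 := (bs d).det_self

theorem tm_bs (y : Fin d → Eu d) (s) : tm y (bs d s) = y s := (bs d).constr_basis ℝ y s

theorem dt_comp (f : Eu d →ₗ[ℝ] Eu d) (y : Fin d → Eu d) :
    dt (fun s => f (y s)) = LinearMap.det f * dt y := (bs d).det_comp f y

theorem det_tm (y : Fin d → Eu d) : LinearMap.det (tm y) = dt y := by
  have h := dt_comp (tm y) (fun s => bs d s)
  rw [dt_bs, mul_one] at h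
  rw [← h]
  congr 1
  funext s
  exact tm_bs y s

theorem dt_cont : Continuous (dt : (Fin d → Eu d) → ℝ) := by
  unfold dt
  have : ∀ y : Fin d → Eu d, (bs d).det y = Matrix.det (fun i j => y j i) := by
    intro y
    rw [Basis.det_apply]
    rfl
  simp_rw [this]
  refine Continuous.matrix_det ?_
  refine continuous_matrix fun i j => ?_
  fun_prop

theorem vol_tm (y : Fin d → Eu d) (A : Set (Eu d)) :
    volume (tm y '' A) = ENNReal.ofReal |dt y| * volume A := by
  rw [Measure.addHaar_image_linearMap, det_tm]

theorem cramer (y : Fin d → Eu d) (c : Eu d) (s : Fin d) :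
    dt (Function.update y s (tm y c)) = c s * dt y := by
  rw [tm_apply]
  unfold dt
  rw [AlternatingMap.map_update_sum]
  rw [Finset.sum_eq_single s]
  · rw [AlternatingMap.map_update_smul, Function.update_eq_self]; rfl
  · intro t _ hts
    rw [AlternatingMap.map_update_smul, AlternatingMap.map_update_self _ _ hts.symm, smul_zero]
  · simp

theorem li_null (m : ℕ) (hm : m ≤ d) :
    volume {r : Fin m → Eu d | ¬ LinearIndependent ℝ r} = 0 := by
  induction m with
  | zero =>
    have : {r : Fin 0 → Eu d | ¬ LinearIndependent ℝ r} = ∅ := by
      ext r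
      simp only [mem_setOf_eq, mem_empty_iff_false, iff_false, not_not]
      exact linearIndependent_empty_type
    rw [this]; simp
  | succ m ih =>
    have ih' := ih (by omega)
    have hclosed : IsClosed {r : Fin (m + 1) → Eu d | ¬ LinearIndependent ℝ r} := by
      rw [← isOpen_compl_iff]
      convert (isOpen_setOf_linearIndependent (𝕜 := ℝ) (E := Eu d) (ι := Fin (m + 1))) using 1
      ext r; simp
    rw [volume_pi, pi_insert (volume : Measure (Eu d)) 0 hclosed.measurableSet, lintegral_eq_zero_iff']
    · have hae : ∀ᵐ r ∂(Measure.pi fun _ : Fin m => (volume : Measure (Eu d))),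
          LinearIndependent ℝ r := by
        rw [ae_iff, ← volume_pi]; exact ih'
      filter_upwards [hae] with r hr
      have hsp : Submodule.span ℝ (range r) ≠ ⊤ := by
        intro htop
        have h1 := finrank_span_le_card (R := ℝ) (M := Eu d) (range r)
        rw [htop, finrank_top, finrank_euclideanSpace_fin] at h1
        have h2 : (range r).toFinset.card ≤ m := by
          rw [toFinset_range]
          exact Finset.card_image_le.trans (by simp)
        omega
      refine measure_mono_null ?_ (Measure.addHaar_submodule volume _ hsp)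
      intro y hy
      by_contra hcon
      apply hy
      show LinearIndependent ℝ (Fin.insertNth 0 y r : Fin (m + 1) → Eu d)
      rw [show (Fin.insertNth 0 y r : Fin (m + 1) → Eu d) = Fin.cons y r from
        Fin.insertNth_zero' y r]
      exact linearIndependent_fin_cons.2 ⟨hr, hcon⟩
    · have h := (measurePreserving_piFinSuccAbove
        (fun _ : Fin (m + 1) => (volume : Measure (Eu d))) 0).symm
      exact (measurable_measure_prodMk_right (μ := (volume : Measure (Eu d)))
        (h.measurable hclosed.measurableSet)).aemeasurable

theorem dt_null0 : volume {r : Fin d → Eu d | dt r = 0} = 0 := by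
  refine measure_mono_null ?_ (li_null d le_rfl)
  intro r hr hli
  have hsp : Submodule.span ℝ (range r) = ⊤ := hli.span_eq_top_of_card_eq_finrank' (by simp)
  have := ((bs d).is_basis_iff_det).1 ⟨hli, hsp⟩
  exact this.ne_zero hr

theorem dt_null (a : Fin d → Eu d) : volume {r : Fin d → Eu d | dt (r + a) = 0} = 0 := by
  have h := measure_preimage_add_right (volume : Measure (Fin d → Eu d)) a {r | dt r = 0}
  rw [dt_null0] at h
  exact h

end Pool.Agent.H39.Beer
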