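import Pool.Agent.H39.Beer.Main1

/-! The final theorem. -/

open MeasureTheory Set Module
open scoped ENNReal Pointwise

namespace Pool.Agent.H39.Beer

variable {d : ℕ}

theorem hull_fin {n : ℕ} (X : Fin n → Eu d) : volume (convexHull ℝ (range X)) ≠ ⊤ :=
  ((finite_range X).isCompact_convexHull ℝ).measure_lt_top.ne

theorem vol_simplex (d : ℕ) : ∃ v : ℝ, 0 < v ∧ ∀ X : Fin (d + 1) → Eu d,
    v * |dt (fun s => X s.succ - X 0)| ≤ (volume (convexHull ℝ (range X))).toReal := by
  set Q : Set (Eu d) := {c | ∀ s, 0 ≤ c s ∧ c s ≤ 1 / ((d : ℝ) + 1)} with hQ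
  have hQf : volume Q ≠ ⊤ := by
    refine ((measure_mono ?_).trans_lt (CC_fin d).lt_top).ne
    intro c hc s
    have := hc s
    rw [abs_of_nonneg this.1]
    refine this.2.trans ?_
    rw [div_le_one (by positivity)]
    have : (0:ℝ) ≤ d := by positivity
    linarith
  have hQ0 : volume Q ≠ 0 := by
    have h1 : IsOpen {c : Eu d | ∀ s, 0 < c s ∧ c s < 1 / ((d : ℝ) + 1)} := by
      rw [show {c : Eu d | ∀ s, 0 < c s ∧ c s < 1 / ((d : ℝ) + 1)} =
        ⋂ s, {c : Eu d | 0 < c s ∧ c s < 1 / ((d : ℝ) + 1)} by ext; simp]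
      refine isOpen_iInter_of_finite fun s => ?_
      have hcs : Continuous fun c : Eu d => c s := by fun_prop
      exact (isOpen_lt continuous_const hcs).inter (isOpen_lt hcs continuous_const)
    have h2 : {c : Eu d | ∀ s, 0 < c s ∧ c s < 1 / ((d : ℝ) + 1)}.Nonempty := by
      refine ⟨WithLp.toLp 2 fun _ => 1 / (2 * ((d : ℝ) + 1)), fun s => ⟨?_, ?_⟩⟩
      · show (0:ℝ) < 1 / (2 * ((d : ℝ) + 1))
        positivity
      · show 1 / (2 * ((d : ℝ) + 1)) < 1 / ((d : ℝ) + 1)
        rw [div_lt_div_iff₀ (by positivity) (by positivity)]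
        have : (0:ℝ) ≤ d := by positivity
        linarith
    have h3 := h1.measure_pos volume h2
    have h4 : {c : Eu d | ∀ s, 0 < c s ∧ c s < 1 / ((d : ℝ) + 1)} ⊆ Q :=
      fun c hc s => ⟨(hc s).1.le, (hc s).2.le⟩
    exact (h3.trans_le (measure_mono h4)).ne'
  refine ⟨(volume Q).toReal, ENNReal.toReal_pos hQ0 hQf, fun X => ?_⟩
  set y : Fin d → Eu d := fun s => X s.succ - X 0 with hy
  have hsub : tm y '' Q ⊆ (fun z => X 0 + z) ⁻¹' convexHull ℝ (range X) := by
    rintro _ ⟨c, hc, rfl⟩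
    show X 0 + tm y c ∈ convexHull ℝ (range X)
    rw [mem_hull_range]
    have hs : ∑ s, c s ≤ 1 := by
      calc ∑ s, c s ≤ ∑ _s : Fin d, 1 / ((d : ℝ) + 1) := Finset.sum_le_sum fun s _ => (hc s).2
        _ = d / ((d : ℝ) + 1) := by simp; rfl
        _ ≤ 1 := by rw [div_le_one (by positivity)]; linarith
    refine ⟨Fin.cons (1 - ∑ s, c s) (fun s => c s), ⟨fun i => ?_, ?_⟩, ?_⟩
    · refine Fin.cases ?_ (fun s => ?_) i
      · simp only [Fin.cons_zero]; linarith
      · simp only [Fin.cons_succ]; exact (hc s).1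
    · rw [Fin.sum_univ_succ]; simp
    · rw [Fin.sum_univ_succ]
      simp only [Fin.cons_zero, Fin.cons_succ]
      rw [tm_apply, hy]
      simp only [smul_sub, Finset.sum_sub_distrib, sub_smul, one_smul, Finset.sum_smul]
      abel
  have h1 : ENNReal.ofReal |dt y| * volume Q ≤ volume (convexHull ℝ (range X)) := by
    rw [← vol_tm]
    refine (measure_mono hsub).trans ?_
    rw [measure_preimage_add]
  have h2 := ENNReal.toReal_mono (hull_fin X) h1
  rw [ENNReal.toReal_mul, ENNReal.toReal_ofReal (abs_nonneg _)] at h2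
  rw [mul_comm]
  exact h2

theorem affInd_of_dt {X : Fin (d + 1) → Eu d} (h : dt (fun s => X s.succ - X 0) ≠ 0) :
    AffineIndependent ℝ X := by
  have hli : LinearIndependent ℝ (fun s : Fin d => X s.succ - X 0) :=
    (((bs d).is_basis_iff_det).2 (isUnit_iff_ne_zero.2 h)).1
  rw [affineIndependent_iff_linearIndependent_vsub ℝ X 0]
  rw [← linearIndependent_equiv (finSuccAboveEquiv (0 : Fin (d + 1)))]
  have h2 : ((fun i : {x : Fin (d + 1) // x ≠ 0} => X i -ᵥ X 0) ∘
      (finSuccAboveEquiv (0 : Fin (d + 1)))) = fun s : Fin d => X s.succ - X 0 := by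
    funext s
    show X ((finSuccAboveEquiv (0 : Fin (d + 1)) s : {x : Fin (d + 1) // x ≠ 0}) : Fin (d + 1)) -ᵥ
      X 0 = X s.succ - X 0
    rw [finSuccAboveEquiv_apply]
    simp
  rw [h2]
  exact hli

theorem Cv_smul {k : ℕ} (S : Set (Eu d)) (r : ℝ) :
    Cv k ((fun x : Eu d => r • x) ⁻¹' S) = (fun x : Fin (k + 1) → Eu d => r • x) ⁻¹' Cv k S := by
  ext x
  simp only [Cv, mem_setOf_eq, mem_preimage]
  have h1 : range (r • x) = r • range x := by
    rw [← range_smul]; rfl
  rw [h1, convexHull_smul]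
  constructor
  · rintro h _ ⟨z, hz, rfl⟩
    exact h hz
  · intro h z hz
    exact h ⟨z, hz, rfl⟩

theorem final (k d : ℕ) (hk : 1 ≤ k) (hkd : k ≤ d) (ε : ℝ) (hε : 0 < ε) : ∃ δ : ℝ, 0 < δ ∧
      ∀ S : Set (EuclideanSpace ℝ (Fin d)), MeasurableSet S → 0 < volume S → volume S < ⊤ →
        ε ≤ (volume {x : Fin (k + 1) → EuclideanSpace ℝ (Fin d) |
                (∀ i, x i ∈ S) ∧ convexHull ℝ (Set.range x) ⊆ S}).toReal
              / (volume S).toReal ^ (k + 1) →
        ∃ X : Fin (d + 1) → EuclideanSpace ℝ (Fin d),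
          AffineIndependent ℝ X ∧
          δ * (volume S).toReal ≤ (volume (convexHull ℝ (Set.range X))).toReal ∧
          ∀ s : Finset (Fin (d + 1)), s.card = k + 1 →
            convexHull ℝ (X '' (s : Set (Fin (d + 1)))) ⊆ S := by
  obtain ⟨k, rfl⟩ : ∃ k', k = k' + 1 := ⟨k - 1, by omega⟩
  obtain ⟨δ, hδ, hmain⟩ := main1 d k (by omega) hε
  obtain ⟨v0, hv0, hvol⟩ := vol_simplex d
  refine ⟨v0 * δ, by positivity, ?_⟩
  intro S hS hSpos hSfin hSε
  set v : ℝ := (volume S).toReal with hv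
  have hvpos : 0 < v := ENNReal.toReal_pos hSpos.ne' hSfin.ne
  have hvS : volume S = ENNReal.ofReal v := (ENNReal.ofReal_toReal hSfin.ne).symm
  set r : ℝ := v ^ ((1:ℝ) / d) with hr
  have hd0 : d ≠ 0 := by omega
  have hrpos : 0 < r := Real.rpow_pos_of_pos hvpos _
  have hrd : r ^ d = v := by
    rw [hr, ← Real.rpow_natCast, ← Real.rpow_mul hvpos.le, one_div_mul_cancel (by exact_mod_cast hd0),
      Real.rpow_one]
  set S' : Set (Eu d) := (fun x : Eu d => r • x) ⁻¹' S with hS'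
  have hS'm : MeasurableSet S' := (measurable_const_smul r) hS
  have hS'1 : volume S' = 1 := by
    rw [hS', Measure.addHaar_preimage_smul volume hrpos.ne', finrank_euclideanSpace_fin, hrd, hvS,
      abs_of_pos (by positivity), ← ENNReal.ofReal_mul (by positivity), inv_mul_cancel₀ hvpos.ne']
    simp
  have hCvset : {x : Fin (k + 1 + 1) → EuclideanSpace ℝ (Fin d) |
      (∀ i, x i ∈ S) ∧ convexHull ℝ (Set.range x) ⊆ S} = Cv (k + 1) S := by
    ext x
    exact ⟨fun h => h.2, fun h => ⟨fun i => Cv_mem' h i, h⟩⟩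
  have hCvv : volume (Cv (k + 1) S') = ENNReal.ofReal ((v ^ (k + 2))⁻¹) * volume (Cv (k + 1) S) := by
    rw [hS', Cv_smul, Measure.addHaar_preimage_smul volume hrpos.ne']
    congr 2
    have : finrank ℝ (Fin (k + 1 + 1) → Eu d) = d * (k + 2) := by
      rw [finrank_pi_fintype]
      simp [mul_comm]
    rw [this, pow_mul, hrd, abs_of_pos (by positivity)]
  have hprob := prob_restrict hS'1
  set P := (Measure.pi fun _ : Fin (k + 2) => (volume : Measure (Eu d)).restrict S') with hP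
  have hPv : P (Cv (k + 1) S') = volume (Cv (k + 1) S') := by
    rw [hP, pi_restrict_eq, Measure.restrict_apply' (MeasurableSet.univ_pi fun _ => hS'm)]
    congr 1
    exact inter_eq_left.2 fun u hu i _ => Cv_mem' hu i
  have hPε : ENNReal.ofReal ε ≤ P (Cv (k + 1) S') := by
    rw [hPv, hCvv]
    rw [hCvset] at hSε
    have h1 : ε * v ^ (k + 1 + 1) ≤ (volume (Cv (k + 1) S)).toReal :=
      (le_div_iff₀ (by positivity)).1 hSε
    have h2 : ENNReal.ofReal (ε * v ^ (k + 1 + 1)) ≤ volume (Cv (k + 1) S) :=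
      ENNReal.ofReal_le_of_le_toReal h1
    calc ENNReal.ofReal ε = ENNReal.ofReal ((v ^ (k + 2))⁻¹) * ENNReal.ofReal (ε * v ^ (k + 1 + 1)) := by
          rw [← ENNReal.ofReal_mul (by positivity)]
          congr 1
          field_simp
      _ ≤ _ := by gcongr
  obtain ⟨E0, hE0, hE0m, hE0e⟩ := (Cv_null (k := k + 1) hS'm P).exists_measurable_subset_ae_eq
  have hnull : P (Cv (k + 1) S' \ E0) = 0 := (ae_eq_set.1 hE0e).2
  have hE0P : ENNReal.ofReal ε ≤ P E0 := by
    rw [measure_congr hE0e]; exact hPε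
  obtain ⟨X, hX1, hX2⟩ := hmain S' hS'm hS'1 E0 hE0 hE0m hnull hE0P
  have hdtX : dt (fun s : Fin d => r • X s.succ - r • X 0) = v * dt (fun s => X s.succ - X 0) := by
    have : (fun s : Fin d => r • X s.succ - r • X 0) = fun s => r • (X s.succ - X 0) := by
      funext s; rw [smul_sub]
    rw [this, dt_smul, hrd]
  have hne : dt (fun s => X s.succ - X 0) ≠ 0 := abs_pos.1 (hδ.trans_le hX1)
  refine ⟨fun i => r • X i, ?_, ?_, ?_⟩
  · refine affInd_of_dt ?_
    show dt (fun s : Fin d => r • X s.succ - r • X 0) ≠ 0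
    rw [hdtX]
    exact mul_ne_zero hvpos.ne' hne
  · have h1 := hvol (fun i => r • X i)
    refine le_trans ?_ h1
    show v0 * δ * v ≤ v0 * |dt (fun s : Fin d => r • X s.succ - r • X 0)|
    rw [hdtX, abs_mul, abs_of_pos hvpos]
    calc v0 * δ * v = v0 * (v * δ) := by ring
      _ ≤ _ := by gcongr
  · intro s hs
    have h1 := hX2 s hs
    have h2 : (fun i => r • X i) '' (s : Set (Fin (d + 1))) = r • (X '' (s : Set (Fin (d + 1)))) := by
      rw [← image_smul, image_image]
    rw [h2, convexHull_smul]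
    rintro _ ⟨z, hz, rfl⟩
    exact h1 hz

end Pool.Agent.H39.Beer
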