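import Pool.Agent.H39.Beer.Null

/-! Good sets: most interior points of most tuples with convex hull in `S` are frequently
represented as a weighted average of independent points of `S`. -/

open MeasureTheory Set
open scoped ENNReal

namespace Pool.Agent.H39.Beer

variable {d : ℕ}

theorem prob_restrict {S : Set (Eu d)} (h : volume S = 1) :
    IsProbabilityMeasure (volume.restrict S) := ⟨by simp [h]⟩

/-- Resampling: the law of an interior average together with the zeroth point. -/
theorem resample {k : ℕ} {S : Set (Eu d)} (hS1 : volume S = 1)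
    {β : ℝ} (hβ : 0 < β) (κ : Fin (k + 2) → ℝ) (hκ : ∀ i, β ≤ κ i)
    {H : Set (Eu d × Eu d)} (hH : MeasurableSet H) :
    (Measure.pi fun _ : Fin (k + 2) => volume.restrict S) {e | (∑ i, κ i • e i, e 0) ∈ H} ≤
      ENNReal.ofReal ((β ^ d)⁻¹) * ∫⁻ x in S, volume {u | (u, x) ∈ H} := by
  have := prob_restrict hS1
  have hm : Measurable fun e : Fin (k + 2) → Eu d => (∑ i, κ i • e i, e 0) := by fun_prop
  rw [show {e : Fin (k + 2) → Eu d | (∑ i, κ i • e i, e 0) ∈ H} =
    (fun e : Fin (k + 2) → Eu d => (∑ i, κ i • e i, e 0)) ⁻¹' H from rfl,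
    pi_insert (volume.restrict S) 1 (hm hH)]
  have hsl : ∀ x : Eu d, MeasurableSet {u | (u, x) ∈ H} := fun x => measurable_prodMk_right hH
  have h1 : ∀ r : Fin (k + 1) → Eu d,
      (volume.restrict S) {y | (Fin.insertNth 1 y r : Fin (k + 2) → Eu d) ∈
        {e : Fin (k + 2) → Eu d | (∑ i, κ i • e i, e 0) ∈ H}} ≤
      ENNReal.ofReal ((β ^ d)⁻¹) * volume {u | (u, r 0) ∈ H} := by
    intro r
    have e0 : ∀ y, (Fin.insertNth 1 y r : Fin (k + 2) → Eu d) 0 = r 0 := by
      intro y
      have : (0 : Fin (k + 2)) = Fin.succAbove 1 0 := by simp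
      rw [this, Fin.insertNth_apply_succAbove]
    have e1 : ∀ y, ∑ i, κ i • (Fin.insertNth 1 y r : Fin (k + 2) → Eu d) i =
        (∑ j, κ (Fin.succAbove 1 j) • r j) + κ 1 • y := by
      intro y
      rw [Fin.sum_univ_succAbove _ 1]
      simp [add_comm]
    calc (volume.restrict S) {y | (Fin.insertNth 1 y r : Fin (k + 2) → Eu d) ∈
        {e : Fin (k + 2) → Eu d | (∑ i, κ i • e i, e 0) ∈ H}}
        = (volume.restrict S) {y | (∑ j, κ (Fin.succAbove 1 j) • r j) + κ 1 • y ∈
            {u | (u, r 0) ∈ H}} := by
          congr 1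
          ext y
          simp only [mem_setOf_eq, e0, e1]
      _ ≤ volume {y | (∑ j, κ (Fin.succAbove 1 j) • r j) + κ 1 • y ∈ {u | (u, r 0) ∈ H}} :=
          Measure.restrict_apply_le _ _
      _ = ∫⁻ y, ({u | (u, r 0) ∈ H}.indicator (fun _ => (1:ℝ≥0∞)))
            ((∑ j, κ (Fin.succAbove 1 j) • r j) + κ 1 • y) := by
          rw [← lintegral_indicator_one]
          · rfl
          · exact (show Measurable fun y : Eu d => (∑ j, κ (Fin.succAbove 1 j) • r j) + κ 1 • y by
              fun_prop) (hsl _)
      _ ≤ ENNReal.ofReal ((β ^ d)⁻¹) * ∫⁻ y, ({u | (u, r 0) ∈ H}.indicator (fun _ => (1:ℝ≥0∞))) y :=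
          lint_up hβ (hκ 1) _ _ (measurable_const.indicator (hsl _))
      _ = _ := by
          rw [lintegral_indicator_const (hsl _)]; simp
  refine (lintegral_mono h1).trans ?_
  have hF : Measurable fun x : Eu d => volume {u | (u, x) ∈ H} := measurable_measure_prodMk_right hH
  rw [lintegral_const_mul' _ _ ENNReal.ofReal_ne_top]
  gcongr
  have h2 := (measurePreserving_eval (fun _ : Fin (k + 1) => volume.restrict S) 0).lintegral_comp hF
  simp only [Function.eval] at h2
  rw [h2]

theorem goodSet (d k n : ℕ) : ∀ β : ℝ, 0 < β → ∀ η : ℝ, 0 < η → ∃ c : ℝ, 0 < c ∧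
    ∀ S : Set (Eu d), MeasurableSet S → volume S = 1 →
    ∀ τ : Fin (n + 1) → ℝ, (∀ j, β ≤ τ j) → ∑ j, τ j = 1 →
    ∃ G ⊆ S, MeasurableSet G ∧
      ENNReal.ofReal c • (volume.restrict G) ≤
        Measure.map (fun x : Fin (n + 1) → Eu d => ∑ j, τ j • x j)
          (Measure.pi fun _ => volume.restrict S) ∧
      ∀ κ : Fin (k + 2) → ℝ, (∀ i, β ≤ κ i) → ∑ i, κ i = 1 →
        (Measure.pi fun _ : Fin (k + 2) => volume.restrict S)
          {e | e ∈ Cv (k + 1) S ∧ ∑ i, κ i • e i ∉ G} ≤ ENNReal.ofReal η := by
  induction n with
  | zero =>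
    intro β hβ η hη
    refine ⟨1, one_pos, fun S hS hS1 τ hτ hτ1 => ⟨S, subset_rfl, hS, ?_, ?_⟩⟩
    · have := prob_restrict hS1
      have h0 : τ 0 = 1 := by simpa using hτ1
      have h1 : (fun x : Fin (0 + 1) → Eu d => ∑ j, τ j • x j) = Function.eval 0 := by
        funext x; simp [h0]
      rw [h1, (measurePreserving_eval (fun _ : Fin (0 + 1) => volume.restrict S) 0).map_eq]
      simp
    · intro κ hκ hκ1
      have : {e | e ∈ Cv (k + 1) S ∧ ∑ i, κ i • e i ∉ S} = (∅ : Set (Fin (k + 2) → Eu d)) := by
        ext e
        simp only [mem_setOf_eq, mem_empty_iff_false, iff_false, not_and, not_not]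
        exact fun he => Cv_mem he (fun i => hβ.le.trans (hκ i)) hκ1
      rw [this]; simp
  | succ n ih =>
    intro β hβ η hη
    obtain ⟨c', hc', IH⟩ := ih (β / 2) (by positivity) (η / 2) (by positivity)
    set s : ℝ := β ^ 2 / 2 with hs
    have hs0 : 0 < s := by positivity
    set c'' : ℝ := (η / 2) * (β ^ d * s ^ d) with hc''
    have hc''0 : 0 < c'' := by positivity
    refine ⟨c' * c'', by positivity, fun S hS hS1 τ hτ hτ1 => ?_⟩
    have := prob_restrict hS1
    -- weights
    have hsum : τ 0 + ∑ j : Fin (n + 1), τ j.succ = 1 := (Fin.sum_univ_succ τ).symm.trans hτ1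
    have hge : β ≤ ∑ j : Fin (n + 1), τ j.succ :=
      (hτ (0 : Fin (n + 1)).succ).trans (Finset.single_le_sum (f := fun j : Fin (n + 1) => τ j.succ)
        (fun j _ => hβ.le.trans (hτ _)) (Finset.mem_univ 0))
    set t0 := τ 0 with ht0
    have ht0β : β ≤ t0 := hτ 0
    have h1t : β ≤ 1 - t0 := by linarith
    have h1t0 : 0 < 1 - t0 := hβ.trans_le h1t
    have ht01 : t0 < 1 := by linarith
    have hβ1 : β ≤ 1 := by linarith
    have hs1 : s ≤ 1 := by rw [hs]; nlinarith
    let τ' : Fin (n + 1) → ℝ := fun j => τ j.succ / (1 - t0)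
    obtain ⟨G', hG'S, hG', hdom, hbad⟩ := IH S hS hS1 τ' (fun j => by
        have : β / 2 ≤ τ j.succ := by linarith [hτ j.succ]
        have h2 : τ j.succ ≤ τ j.succ / (1 - t0) := by
          rw [le_div_iff₀ h1t0]
          have := hβ.le.trans (hτ j.succ)
          nlinarith
        exact this.trans h2) (by
        simp only [τ', ← Finset.sum_div]
        rw [div_eq_one_iff_eq h1t0.ne']; linarith)
    -- the map
    let y : Eu d → Eu d → Eu d := fun u x => (1 - t0)⁻¹ • (u - t0 • x)
    have hym : Measurable fun p : Eu d × Eu d => y p.1 p.2 := by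
      simp only [y]; fun_prop
    have hAm : MeasurableSet {p : Eu d × Eu d | y p.1 p.2 ∈ G'} := hym hG'
    let A : Eu d → ℝ≥0∞ := fun u => (volume.restrict S) {x | y u x ∈ G'}
    have hAmeas : Measurable A := measurable_measure_prodMk_left hAm
    let G : Set (Eu d) := S ∩ {u | ENNReal.ofReal c'' ≤ A u}
    have hG : MeasurableSet G := hS.inter (measurableSet_le measurable_const hAmeas)
    refine ⟨G, inter_subset_left, hG, ?_, ?_⟩
    · -- domination
      refine Measure.le_iff.2 fun B hB => ?_
      have hmap : Measurable fun x : Fin (n + 1 + 1) → Eu d => ∑ j, τ j • x j := by fun_prop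
      have hmap' : Measurable fun x : Fin (n + 1) → Eu d => ∑ j, τ' j • x j := by fun_prop
      rw [Measure.map_apply hmap hB]
      simp only [Measure.smul_apply, smul_eq_mul]
      rw [pi_insert' (volume.restrict S) 0 (hmap hB)]
      have e1 : ∀ x0 : Eu d, (Measure.pi fun _ : Fin (n + 1) => volume.restrict S)
          {r | (Fin.insertNth 0 x0 r : Fin (n + 2) → Eu d) ∈
            (fun x : Fin (n + 1 + 1) → Eu d => ∑ j, τ j • x j) ⁻¹' B} =
          Measure.map (fun x : Fin (n + 1) → Eu d => ∑ j, τ' j • x j)
            (Measure.pi fun _ => volume.restrict S) {z | t0 • x0 + (1 - t0) • z ∈ B} := by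
        intro x0
        have hBx : MeasurableSet {z : Eu d | t0 • x0 + (1 - t0) • z ∈ B} :=
          (show Measurable fun z : Eu d => t0 • x0 + (1 - t0) • z by fun_prop) hB
        rw [Measure.map_apply hmap' hBx]
        congr 1
        ext r
        simp only [mem_setOf_eq, mem_preimage]
        rw [Fin.sum_univ_succAbove _ 0]
        simp only [Fin.insertNth_apply_same, Fin.insertNth_apply_succAbove]
        have : ∑ i : Fin (n + 1), τ ((0 : Fin (n + 2)).succAbove i) • r i =
            (1 - t0) • ∑ j, τ' j • r j := by
          simp only [Fin.succAbove_zero]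
          rw [Finset.smul_sum]
          refine Finset.sum_congr rfl fun j _ => ?_
          simp only [τ', smul_smul]
          congr 1
          field_simp
        rw [this]
      simp_rw [e1]
      have e2 : ∀ x0 : Eu d, ENNReal.ofReal c' * ∫⁻ u, (B.indicator (fun _ => (1:ℝ≥0∞)) u) *
            (G'.indicator (fun _ => (1:ℝ≥0∞)) (y u x0)) ≤
          Measure.map (fun x : Fin (n + 1) → Eu d => ∑ j, τ' j • x j)
            (Measure.pi fun _ => volume.restrict S) {z | t0 • x0 + (1 - t0) • z ∈ B} := by
        intro x0
        have hBx : MeasurableSet {z : Eu d | t0 • x0 + (1 - t0) • z ∈ B} :=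
          (show Measurable fun z : Eu d => t0 • x0 + (1 - t0) • z by fun_prop) hB
        have h3 := Measure.le_iff.1 hdom _ hBx
        refine le_trans ?_ h3
        simp only [Measure.smul_apply, smul_eq_mul]
        gcongr
        have hfm : Measurable fun u : Eu d => (B.indicator (fun _ => (1:ℝ≥0∞)) u) *
            (G'.indicator (fun _ => (1:ℝ≥0∞)) (y u x0)) := by
          refine (measurable_const.indicator hB).mul ((measurable_const.indicator hG').comp ?_)
          simp only [y]; fun_prop
        refine (lint_down h1t0 (by linarith) (t0 • x0) _ hfm).trans ?_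
        rw [Measure.restrict_apply hBx, ← lintegral_indicator_one (hBx.inter hG')]
        refine lintegral_mono fun z => ?_
        have hyz : y (t0 • x0 + (1 - t0) • z) x0 = z := by
          simp only [y]
          rw [add_sub_cancel_left, smul_smul, inv_mul_cancel₀ h1t0.ne', one_smul]
        simp only [hyz]
        by_cases h1 : t0 • x0 + (1 - t0) • z ∈ B <;> by_cases h2 : z ∈ G' <;>
          simp [h1, h2, indicator]
      refine le_trans ?_ (lintegral_mono e2)
      rw [lintegral_const_mul' _ _ ENNReal.ofReal_ne_top]
      rw [ENNReal.ofReal_mul hc'.le, mul_assoc]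
      gcongr
      rw [lintegral_lintegral_swap]
      · have e3 : ∀ u, ∫⁻ x0 in S, (B.indicator (fun _ => (1:ℝ≥0∞)) u) *
            (G'.indicator (fun _ => (1:ℝ≥0∞)) (y u x0)) =
            (B.indicator (fun _ => (1:ℝ≥0∞)) u) * A u := by
          intro u
          rw [lintegral_const_mul]
          · congr 1
            have hsl : MeasurableSet {x | y u x ∈ G'} :=
              (show Measurable fun x => y u x by simp only [y]; fun_prop) hG'
            show _ = (volume.restrict S) {x | y u x ∈ G'}
            rw [← lintegral_indicator_one hsl]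
            rfl
          · exact (measurable_const.indicator hG').comp
              (show Measurable fun x => y u x by simp only [y]; fun_prop)
        simp_rw [e3]
        rw [Measure.restrict_apply hB]
        calc ENNReal.ofReal c'' * volume (B ∩ G)
            = ∫⁻ u in B ∩ G, ENNReal.ofReal c'' := by simp
          _ ≤ ∫⁻ u in B ∩ G, (B.indicator (fun _ => (1:ℝ≥0∞)) u) * A u := by
              refine setLIntegral_mono' (hB.inter hG) fun u hu => ?_
              simp only [indicator_of_mem hu.1, one_mul]
              exact hu.2.2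
          _ ≤ _ := setLIntegral_le_lintegral _ _
      · refine Measurable.aemeasurable ?_
        exact ((measurable_const.indicator hB).comp measurable_snd).mul
          ((measurable_const.indicator hG').comp (hym.comp measurable_swap))
    · -- few bad tuples
      intro κ hκ hκ1
      let Hs : Set (Eu d × Eu d) := {p | p.1 ∈ S \ G ∧ (1 - s) • p.1 + s • p.2 ∈ S ∧
        y p.1 ((1 - s) • p.1 + s • p.2) ∈ G'}
      have hxm : Measurable fun p : Eu d × Eu d => (1 - s) • p.1 + s • p.2 := by fun_prop
      have hHs : MeasurableSet Hs := by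
        refine (measurable_fst (hS.diff hG)).inter ((hxm hS).inter ?_)
        exact (hym.comp (measurable_fst.prodMk hxm)) hG'
      set γ := t0 / (1 - t0) with hγ
      have hγ0 : 0 ≤ γ := div_nonneg (hβ.le.trans ht0β) h1t0.le
      have hsγ : s * γ ≤ β / 2 := by
        have : γ ≤ 1 / β := by
          rw [hγ, div_le_div_iff₀ h1t0 hβ]; nlinarith
        calc s * γ ≤ s * (1 / β) := by gcongr
          _ = β / 2 := by rw [hs]; field_simp
      let κ' : Fin (k + 2) → ℝ := fun i => (1 + s * γ) * κ i - if i = 0 then s * γ else 0
      have hκ'1 : ∑ i, κ' i = 1 := by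
        simp only [κ', Finset.sum_sub_distrib, ← Finset.mul_sum, hκ1]
        simp
      have hκ'β : ∀ i, β / 2 ≤ κ' i := by
        intro i
        have h1 := hκ i
        have h2 : 0 ≤ s * γ := by positivity
        simp only [κ']
        split_ifs
        · nlinarith
        · nlinarith
      have hyk : ∀ e : Fin (k + 2) → Eu d,
          y (∑ i, κ i • e i) ((1 - s) • (∑ i, κ i • e i) + s • e 0) = ∑ i, κ' i • e i := by
        intro e
        have h1 : ∑ i, κ' i • e i = (1 + s * γ) • (∑ i, κ i • e i) - (s * γ) • e 0 := by
          simp only [κ', sub_smul, Finset.sum_sub_distrib, mul_smul, Finset.smul_sum]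
          congr 1
          rw [Finset.sum_eq_single 0]
          · simp [mul_smul]
          · intro b _ hb; simp [hb]
          · simp
        rw [h1]
        simp only [y, hγ]
        set u := ∑ i, κ i • e i
        have : u - t0 • ((1 - s) • u + s • e 0) =
            (1 - t0 + t0 * s) • u - (t0 * s) • e 0 := by
          module
        rw [this, smul_sub, smul_smul, smul_smul]
        congr 2
        · field_simp
        · field_simp
      have hsub : {e | e ∈ Cv (k + 1) S ∧ ∑ i, κ i • e i ∉ G} ⊆
          {e | e ∈ Cv (k + 1) S ∧ ∑ i, κ' i • e i ∉ G'} ∪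
            {e : Fin (k + 2) → Eu d | (∑ i, κ i • e i, e 0) ∈ Hs} := by
        rintro e ⟨he, heG⟩
        by_cases h : ∑ i, κ' i • e i ∈ G'
        · right
          refine ⟨⟨Cv_mem he (fun i => hβ.le.trans (hκ i)) hκ1, heG⟩, ?_, ?_⟩
          · -- x̂ in S
            have : (1 - s) • (∑ i, κ i • e i) + s • e 0 =
                ∑ i, ((1 - s) * κ i + if i = 0 then s else 0) • e i := by
              simp only [add_smul, Finset.sum_add_distrib, mul_smul, Finset.smul_sum]
              congr 1
              rw [Finset.sum_eq_single 0]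
              · simp
              · intro b _ hb; simp [hb]
              · simp
            show (1 - s) • (∑ i, κ i • e i) + s • e 0 ∈ S
            rw [this]
            refine Cv_mem he (fun i => ?_) ?_
            · have := hβ.le.trans (hκ i)
              have h2 : 0 ≤ 1 - s := by linarith
              split_ifs <;> positivity
            · rw [Finset.sum_add_distrib, ← Finset.mul_sum, hκ1]
              simp
          · show y (∑ i, κ i • e i) ((1 - s) • (∑ i, κ i • e i) + s • e 0) ∈ G'
            rw [hyk]; exact h
        · left; exact ⟨he, h⟩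
      refine (measure_mono hsub).trans ((measure_union_le _ _).trans ?_)
      have hb1 := hbad κ' hκ'β hκ'1
      have hb2 : (Measure.pi fun _ : Fin (k + 2) => volume.restrict S)
          {e : Fin (k + 2) → Eu d | (∑ i, κ i • e i, e 0) ∈ Hs} ≤ ENNReal.ofReal (η / 2) := by
        refine (resample hS1 hβ κ hκ hHs).trans ?_
        -- swap
        have hsw : ∫⁻ x in S, volume {u | (u, x) ∈ Hs} =
            ∫⁻ u, (volume.restrict S) {x | (u, x) ∈ Hs} := by
          have h1 : _ = ∫⁻ x in S, volume {u | (u, x) ∈ Hs} :=
            Measure.prod_apply_symm (μ := volume) (ν := volume.restrict S) hHs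
          have h2 : _ = ∫⁻ u, (volume.restrict S) {x | (u, x) ∈ Hs} :=
            Measure.prod_apply (μ := volume) (ν := volume.restrict S) hHs
          rw [← h1, ← h2]
        rw [hsw]
        have hpt : ∀ u, (volume.restrict S) {x | (u, x) ∈ Hs} ≤
            S.indicator (fun _ => ENNReal.ofReal ((s ^ d)⁻¹) * ENNReal.ofReal c'') u := by
          intro u
          by_cases hu : u ∈ S \ G
          · rw [indicator_of_mem hu.1]
            have hu2 : A u < ENNReal.ofReal c'' := by
              by_contra hcon
              exact hu.2 ⟨hu.1, not_lt.1 hcon⟩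
            have hsl : MeasurableSet (S ∩ {x | y u x ∈ G'}) :=
              hS.inter ((show Measurable fun x => y u x by simp only [y]; fun_prop) hG')
            have hsl' : MeasurableSet {x | y u x ∈ G'} :=
              (show Measurable fun x => y u x by simp only [y]; fun_prop) hG'
            have h5 : A u = volume (S ∩ {x | y u x ∈ G'}) := by
              show (volume.restrict S) {x | y u x ∈ G'} = _
              rw [Measure.restrict_apply hsl', inter_comm]
            calc (volume.restrict S) {x | (u, x) ∈ Hs} ≤ volume {x | (u, x) ∈ Hs} :=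
                  Measure.restrict_apply_le _ _
              _ ≤ volume {x | (1 - s) • u + s • x ∈ S ∩ {x | y u x ∈ G'}} := by
                  refine measure_mono fun x hx => ?_
                  exact ⟨hx.2.1, hx.2.2⟩
              _ = ∫⁻ x, ((S ∩ {x | y u x ∈ G'}).indicator (fun _ => (1:ℝ≥0∞)))
                    ((1 - s) • u + s • x) := by
                  rw [← lintegral_indicator_one]
                  · rfl
                  · exact (show Measurable fun x : Eu d => (1 - s) • u + s • x by fun_prop) hsl
              _ ≤ ENNReal.ofReal ((s ^ d)⁻¹) *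
                    ∫⁻ x, ((S ∩ {x | y u x ∈ G'}).indicator (fun _ => (1:ℝ≥0∞))) x :=
                  lint_up hs0 le_rfl _ _ (measurable_const.indicator hsl)
              _ = ENNReal.ofReal ((s ^ d)⁻¹) * A u := by
                  rw [lintegral_indicator_const hsl, h5]; simp
              _ ≤ _ := by gcongr
          · have : {x | (u, x) ∈ Hs} = ∅ := by
              ext x
              simp only [mem_setOf_eq, mem_empty_iff_false, iff_false]
              exact fun h => hu h.1
            rw [this]; simp
        calc ENNReal.ofReal ((β ^ d)⁻¹) * ∫⁻ u, (volume.restrict S) {x | (u, x) ∈ Hs}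
            ≤ ENNReal.ofReal ((β ^ d)⁻¹) *
              ∫⁻ u, S.indicator (fun _ => ENNReal.ofReal ((s ^ d)⁻¹) * ENNReal.ofReal c'') u := by
              gcongr with u
              exact hpt u
          _ = ENNReal.ofReal ((β ^ d)⁻¹) * (ENNReal.ofReal ((s ^ d)⁻¹) * ENNReal.ofReal c'') := by
              rw [lintegral_indicator_const hS, hS1, mul_one]
          _ = ENNReal.ofReal (η / 2) := by
              rw [← ENNReal.ofReal_mul (by positivity), ← ENNReal.ofReal_mul (by positivity)]
              congr 1
              rw [hc'']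
              field_simp
      calc _ ≤ ENNReal.ofReal (η / 2) + ENNReal.ofReal (η / 2) := add_le_add hb1 hb2
        _ = ENNReal.ofReal η := by
            rw [← ENNReal.ofReal_add (by positivity) (by positivity)]
            congr 1; ring

end Pool.Agent.H39.Beer
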