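import Pool.Agent.H39.Beer.Phase1b

/-! Weights in general position. -/

open MeasureTheory Set Module
open scoped ENNReal

namespace Pool.Agent.H39.Beer

variable {d : ℕ}

/-- Points of the simplex in general position. -/
noncomputable def lam (K M : ℕ) (j : Fin M) (i : Fin K) : ℝ :=
  ((j : ℝ) + 1) ^ (i : ℕ) / ∑ i' : Fin K, ((j : ℝ) + 1) ^ (i' : ℕ)

theorem lam_den_pos (K M : ℕ) [NeZero K] (j : Fin M) :
    0 < ∑ i' : Fin K, ((j : ℝ) + 1) ^ (i' : ℕ) :=
  Finset.sum_pos (fun i _ => by positivity) Finset.univ_nonempty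

theorem lam_nonneg (K M : ℕ) (j : Fin M) (i : Fin K) : 0 ≤ lam K M j i := by
  unfold lam; positivity

theorem lam_sum (K M : ℕ) [NeZero K] (j : Fin M) : ∑ i, lam K M j i = 1 := by
  unfold lam
  rw [← Finset.sum_div, div_self (lam_den_pos K M j).ne']

/-- The matrix of weights on a set of indices. -/
noncomputable def lmat {K M : ℕ} (J : {J : Finset (Fin M) // J.card = K}) : Matrix (Fin K) (Fin K) ℝ :=
  fun a i => lam K M (J.1.orderEmbOfFin J.2 a) i

theorem lmat_det {K M : ℕ} [NeZero K] (J : {J : Finset (Fin M) // J.card = K}) :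
    (lmat J).det ≠ 0 := by
  have h1 : lmat J = Matrix.of fun a i =>
      (∑ i' : Fin K, (((J.1.orderEmbOfFin J.2 a : Fin M) : ℝ) + 1) ^ (i' : ℕ))⁻¹ *
        Matrix.vandermonde (fun a => (((J.1.orderEmbOfFin J.2 a : Fin M) : ℝ) + 1)) a i := by
    ext a i
    simp only [lmat, lam, Matrix.of_apply, Matrix.vandermonde_apply]
    rw [div_eq_inv_mul]
  rw [h1, Matrix.det_mul_column]
  refine mul_ne_zero (Finset.prod_ne_zero_iff.2 fun a _ => ?_) ?_
  · exact inv_ne_zero (lam_den_pos K M _).ne'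
  · rw [Matrix.det_vandermonde_ne_zero_iff]
    intro a b hab
    have : ((J.1.orderEmbOfFin J.2 a : Fin M) : ℝ) = ((J.1.orderEmbOfFin J.2 b : Fin M) : ℝ) := by
      simpa using hab
    have h2 : (J.1.orderEmbOfFin J.2 a : Fin M) = J.1.orderEmbOfFin J.2 b := by
      exact Fin.ext (by exact_mod_cast this)
    exact (J.1.orderEmbOfFin J.2).injective h2

/-- Solving for the vertices. -/
noncomputable def phi {K M : ℕ} (J : {J : Finset (Fin M) // J.card = K}) (g : Fin M → Eu d) :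
    Fin K → Eu d := fun i => ∑ a, (lmat J)⁻¹ i a • g (J.1.orderEmbOfFin J.2 a)

theorem phi_add {K M : ℕ} (J : {J : Finset (Fin M) // J.card = K}) (g h : Fin M → Eu d) (i) :
    phi J (g + h) i = phi J g i + phi J h i := by
  simp [phi, smul_add, Finset.sum_add_distrib]

theorem phi_spec {K M : ℕ} [NeZero K] (J : {J : Finset (Fin M) // J.card = K}) (g : Fin M → Eu d)
    {j : Fin M} (hj : j ∈ J.1) : ∑ i, lam K M j i • phi J g i = g j := by
  obtain ⟨a, rfl⟩ : ∃ a, J.1.orderEmbOfFin J.2 a = j := by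
    have : j ∈ Set.range (J.1.orderEmbOfFin J.2) := by
      rw [Finset.range_orderEmbOfFin]; exact hj
    exact this
  have hunit : IsUnit (lmat J).det := (lmat_det J).isUnit
  have h1 := Matrix.mul_nonsing_inv (lmat J) hunit
  simp only [phi, Finset.smul_sum, smul_smul]
  rw [Finset.sum_comm]
  have h2 : ∀ b, ∑ i, (lam K M (J.1.orderEmbOfFin J.2 a) i * (lmat J)⁻¹ i b) •
      g (J.1.orderEmbOfFin J.2 b) = (if a = b then (1:ℝ) else 0) • g (J.1.orderEmbOfFin J.2 b) := by
    intro b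
    rw [← Finset.sum_smul]
    congr 1
    have h3 := congrFun (congrFun h1 a) b
    rw [Matrix.mul_apply, Matrix.one_apply] at h3
    exact h3
  simp_rw [h2]
  simp

theorem phi_cont {K M : ℕ} (J : {J : Finset (Fin M) // J.card = K}) :
    Continuous (phi J : (Fin M → Eu d) → _) := by
  unfold phi
  refine continuous_pi fun i => ?_
  fun_prop

/-- The bound for `phi`. -/
noncomputable def phiC (K M : ℕ) : ℝ :=
  ∑ J : {J : Finset (Fin M) // J.card = K}, ∑ i, ∑ a, |(lmat J)⁻¹ i a| + 1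

theorem phiC_pos (K M : ℕ) : 0 < phiC K M := by
  unfold phiC; positivity

theorem phi_bound {K M : ℕ} (J : {J : Finset (Fin M) // J.card = K}) (g : Fin M → Eu d) (i) :
    ‖phi J g i‖ ≤ phiC K M * ‖g‖ := by
  calc ‖phi J g i‖ ≤ ∑ a, ‖(lmat J)⁻¹ i a • g (J.1.orderEmbOfFin J.2 a)‖ := norm_sum_le _ _
    _ ≤ ∑ a, |(lmat J)⁻¹ i a| * ‖g‖ := by
        refine Finset.sum_le_sum fun a _ => ?_
        rw [norm_smul, Real.norm_eq_abs]
        gcongr
        exact norm_le_pi_norm g _
    _ = (∑ a, |(lmat J)⁻¹ i a|) * ‖g‖ := by rw [Finset.sum_mul]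
    _ ≤ phiC K M * ‖g‖ := by
        gcongr
        unfold phiC
        have h1 : ∑ a, |(lmat J)⁻¹ i a| ≤ ∑ i, ∑ a, |(lmat J)⁻¹ i a| :=
          Finset.single_le_sum (f := fun i => ∑ a, |(lmat J)⁻¹ i a|)
            (fun i _ => Finset.sum_nonneg fun a _ => abs_nonneg _) (Finset.mem_univ i)
        have h2 : ∑ i, ∑ a, |(lmat J)⁻¹ i a| ≤
            ∑ J : {J : Finset (Fin M) // J.card = K}, ∑ i, ∑ a, |(lmat J)⁻¹ i a| :=
          Finset.single_le_sum (f := fun J : {J : Finset (Fin M) // J.card = K} =>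
            ∑ i, ∑ a, |(lmat J)⁻¹ i a|)
            (fun i _ => Finset.sum_nonneg fun a _ => Finset.sum_nonneg fun b _ => abs_nonneg _)
            (Finset.mem_univ J)
        linarith

end Pool.Agent.H39.Beer
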