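import Pool.Agent.H39.Beer.Det

/-! Random points with bounded density: some determinant is not small. -/

open MeasureTheory Set Module
open scoped ENNReal

namespace Pool.Agent.H39.Beer

variable {d : ℕ}

/-- A bound for the volume of the cube. -/
noncomputable def CC (d : ℕ) : ℝ≥0∞ := volume {c : Eu d | ∀ s, |c s| ≤ 1}

theorem CC_fin (d : ℕ) : CC d ≠ ⊤ := by
  have : {c : Eu d | ∀ s, |c s| ≤ 1} ⊆ Metric.closedBall 0 (Real.sqrt d) := by
    intro c hc
    rw [mem_closedBall_zero_iff, EuclideanSpace.norm_eq]
    apply Real.sqrt_le_sqrt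
    calc ∑ i, ‖c i‖ ^ 2 ≤ ∑ _i : Fin d, (1:ℝ) := by
          refine Finset.sum_le_sum fun i _ => ?_
          have := hc i
          rw [Real.norm_eq_abs]
          exact pow_le_one₀ (abs_nonneg _) this
      _ = d := by simp
  exact ((measure_mono this).trans_lt measure_closedBall_lt_top).ne

theorem perm_aux (j : Fin (d + 1)) (s : Fin d) (X : Fin (d + 1) → Eu d) :
    |dt (fun t => X ((j.succAbove s).succAbove t))| =
      |dt (Function.update (fun t => X (j.succAbove t)) s (X j))| := by
  let e2 : Fin d → Fin (d + 1) := Function.update j.succAbove s j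
  have he2 : ∀ t, ∃ u, e2 u = (j.succAbove s).succAbove t := by
    intro t
    by_cases h : (j.succAbove s).succAbove t = j
    · exact ⟨s, by simp [e2, h]⟩
    · obtain ⟨u, hu⟩ := Fin.exists_succAbove_eq h
      refine ⟨u, ?_⟩
      have : u ≠ s := by
        rintro rfl
        exact (Fin.succAbove_ne _ _) hu.symm
      simp [e2, this, hu]
  choose σ hσ using he2
  have hinj : Function.Injective σ := by
    intro a b hab
    have : (j.succAbove s).succAbove a = (j.succAbove s).succAbove b := by
      rw [← hσ a, ← hσ b, hab]
    exact Fin.succAbove_right_injective this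
  let P : Equiv.Perm (Fin d) := Equiv.ofBijective σ (Finite.injective_iff_bijective.1 hinj)
  have h1 : (fun t => X ((j.succAbove s).succAbove t)) =
      (Function.update (fun t => X (j.succAbove t)) s (X j)) ∘ P := by
    funext t
    show X ((j.succAbove s).succAbove t) =
      (Function.update (fun t => X (j.succAbove t)) s (X j)) (σ t)
    rw [← hσ t]
    by_cases h : σ t = s
    · simp [h, e2]
    · simp [h, e2]
  rw [h1]
  unfold dt
  rw [AlternatingMap.map_perm]
  rcases Int.units_eq_one_or (Equiv.Perm.sign P) with h | h <;> simp [h]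

theorem lemQ_inner {ν : Measure (Eu d)} [IsProbabilityMeasure ν] {K : ℝ≥0∞} (hK : K ≠ ⊤)
    (hν : ν ≤ K • volume) (a : Fin (d + 1) → Eu d) {τ : ℝ} :
    (Measure.pi fun _ : Fin (d + 1) => ν)
      {x | ∀ j : Fin (d + 1), |dt (fun s => x (j.succAbove s) + a (j.succAbove s))| < τ} ≤
      (d + 1) * (K * (ENNReal.ofReal τ * CC d)) := by
  let D : Fin (d + 1) → (Fin (d + 1) → Eu d) → ℝ := fun j x =>
    dt (fun s => x (j.succAbove s) + a (j.succAbove s))
  have hDc : ∀ j, Continuous (D j) := fun j => dt_cont.comp (by fun_prop)
  let W : Fin (d + 1) → Set (Fin (d + 1) → Eu d) := fun j =>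
    {x | |D j x| < τ ∧ ∀ j', |D j' x| ≤ |D j x|}
  have hWm : ∀ j, MeasurableSet (W j) := by
    intro j
    refine (measurableSet_lt (hDc j).abs.measurable measurable_const).inter ?_
    have : {x | ∀ j', |D j' x| ≤ |D j x|} = ⋂ j', {x | |D j' x| ≤ |D j x|} := by ext; simp
    rw [show (fun x => ∀ j', |D j' x| ≤ |D j x|) = {x | ∀ j', |D j' x| ≤ |D j x|} from rfl, this]
    exact MeasurableSet.iInter fun j' =>
      measurableSet_le (hDc j').abs.measurable (hDc j).abs.measurable
  have hsub : {x | ∀ j : Fin (d + 1), |dt (fun s => x (j.succAbove s) + a (j.succAbove s))| < τ} ⊆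
      ⋃ j, W j := by
    intro x hx
    obtain ⟨j, hj⟩ := Finite.exists_max fun j => |D j x|
    exact mem_iUnion.2 ⟨j, hx j, hj⟩
  refine (measure_mono hsub).trans ((measure_iUnion_le _).trans ?_)
  rw [tsum_fintype]
  have hW : ∀ j, (Measure.pi fun _ : Fin (d + 1) => ν) (W j) ≤
      K * (ENNReal.ofReal τ * CC d) := by
    intro j
    rw [pi_insert ν j (hWm j)]
    have hae : ∀ᵐ r ∂(Measure.pi fun _ : Fin d => ν),
        dt (r + fun s => a (j.succAbove s)) ≠ 0 := by
      have h1 : (Measure.pi fun _ : Fin d => ν) ≤ Measure.pi fun _ : Fin d => K • volume :=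
        pi_mono' fun _ => hν
      have h2 : (Measure.pi fun _ : Fin d => ν) ≪ volume := by
        refine (Measure.absolutelyContinuous_of_le h1).trans ?_
        intro A hA
        have h4 : (Measure.pi fun _ : Fin d => K • (volume : Measure (Eu d))) =
            K ^ d • Measure.pi fun _ : Fin d => (volume : Measure (Eu d)) := by
          have : SigmaFinite (K • (volume : Measure (Eu d))) := by
            refine ⟨⟨fun n => Metric.closedBall 0 n, fun _ => trivial, fun n => ?_, ?_⟩⟩
            · rw [Measure.smul_apply, smul_eq_mul]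
              exact ENNReal.mul_lt_top hK.lt_top measure_closedBall_lt_top
            · exact Metric.iUnion_closedBall_nat 0
          refine Measure.pi_eq fun s hs => ?_
          simp only [Measure.smul_apply, smul_eq_mul, Measure.pi_pi, Finset.prod_mul_distrib]
          simp
        rw [h4, Measure.smul_apply, ← volume_pi, hA, smul_zero]
      exact h2.ae_le (ae_iff.2 (by simpa using dt_null fun s => a (j.succAbove s)))
    calc ∫⁻ r, ν {y | (j.insertNth y r : Fin (d + 1) → Eu d) ∈ W j} ∂(Measure.pi fun _ => ν)
        ≤ ∫⁻ r, K * (ENNReal.ofReal τ * CC d) ∂(Measure.pi fun _ : Fin d => ν) := by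
          refine lintegral_mono_ae ?_
          filter_upwards [hae] with r hr
          set z : Fin d → Eu d := fun s => r s + a (j.succAbove s) with hz
          have hzr : dt z ≠ 0 := hr
          have hDj : ∀ y, D j (j.insertNth y r : Fin (d + 1) → Eu d) = dt z := by
            intro y
            simp only [D, hz, Fin.insertNth_apply_succAbove]
          by_cases hzt : |dt z| < τ
          · have hin : {y | (j.insertNth y r : Fin (d + 1) → Eu d) ∈ W j} ⊆
                (fun y => y + a j) ⁻¹' (tm z '' {c : Eu d | ∀ s, |c s| ≤ 1}) := by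
              intro y hy
              -- surjectivity
              have hdet : LinearMap.det (tm z) ≠ 0 := by rw [det_tm]; exact hzr
              obtain ⟨c, hc⟩ : ∃ c, tm z c = y + a j :=
                ((LinearMap.equivOfDetNeZero _ hdet).surjective (y + a j))
              refine ⟨c, fun s => ?_, hc⟩
              have h5 := cramer z c s
              rw [hc] at h5
              have h6 := hy.2 (j.succAbove s)
              rw [hDj] at h6
              set X : Fin (d + 1) → Eu d := fun i =>
                (j.insertNth y r : Fin (d + 1) → Eu d) i + a i with hX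
              have h7 : D (j.succAbove s) (j.insertNth y r : Fin (d + 1) → Eu d) =
                  dt (fun t => X ((j.succAbove s).succAbove t)) := rfl
              rw [h7, perm_aux] at h6
              have h8 : (fun t => X (j.succAbove t)) = z := by
                funext t; simp [hX, hz]
              have h9 : X j = y + a j := by simp [hX]
              rw [h8, h9, h5, abs_mul] at h6
              have h10 : 0 < |dt z| := abs_pos.2 hzr
              exact le_of_mul_le_mul_right (by linarith) h10
            calc ν {y | (j.insertNth y r : Fin (d + 1) → Eu d) ∈ W j}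
                ≤ (K • volume) {y | (j.insertNth y r : Fin (d + 1) → Eu d) ∈ W j} := hν _
              _ = K * volume {y | (j.insertNth y r : Fin (d + 1) → Eu d) ∈ W j} := rfl
              _ ≤ K * volume ((fun y => y + a j) ⁻¹' (tm z '' {c : Eu d | ∀ s, |c s| ≤ 1})) := by
                  gcongr
              _ = K * (ENNReal.ofReal |dt z| * CC d) := by
                  rw [measure_preimage_add_right, vol_tm]; rfl
              _ ≤ _ := by gcongr
          · have : {y | (j.insertNth y r : Fin (d + 1) → Eu d) ∈ W j} = ∅ := by
              ext y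
              simp only [mem_setOf_eq, mem_empty_iff_false, iff_false]
              intro h
              have h1 := h.1
              rw [hDj] at h1
              exact hzt h1
            rw [this]; simp
      _ = _ := by simp
  calc ∑ j, (Measure.pi fun _ : Fin (d + 1) => ν) (W j)
      ≤ ∑ _j : Fin (d + 1), K * (ENNReal.ofReal τ * CC d) := Finset.sum_le_sum fun j _ => hW j
    _ = _ := by simp

theorem lemQ {ν : Measure (Eu d)} [IsProbabilityMeasure ν] {K : ℝ≥0∞} (hK : K ≠ ⊤)
    (hν : ν ≤ K • volume) (a : Fin (d + 2) → Eu d) {τ : ℝ} :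
    (Measure.pi fun _ : Fin (d + 2) => ν)
      {x | ∀ j : Fin (d + 1), |dt (fun s => (x (j.succAbove s).succ + a (j.succAbove s).succ) -
        (x 0 + a 0))| < τ} ≤
      (d + 1) * (K * (ENNReal.ofReal τ * CC d)) := by
  have hm : MeasurableSet {x : Fin (d + 2) → Eu d | ∀ j : Fin (d + 1),
      |dt (fun s => (x (j.succAbove s).succ + a (j.succAbove s).succ) - (x 0 + a 0))| < τ} := by
    rw [show {x : Fin (d + 2) → Eu d | ∀ j : Fin (d + 1),
      |dt (fun s => (x (j.succAbove s).succ + a (j.succAbove s).succ) - (x 0 + a 0))| < τ} =
      ⋂ j : Fin (d + 1), {x | |dt (fun s => (x (j.succAbove s).succ + a (j.succAbove s).succ) -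
        (x 0 + a 0))| < τ} by ext; simp]
    refine MeasurableSet.iInter fun j => measurableSet_lt ?_ measurable_const
    exact (dt_cont.comp (by fun_prop)).abs.measurable
  rw [pi_insert' ν 0 hm]
  calc _ ≤ ∫⁻ _y, (d + 1) * (K * (ENNReal.ofReal τ * CC d)) ∂ν := by
        refine lintegral_mono fun y => ?_
        refine le_trans (le_of_eq ?_) (lemQ_inner hK hν (fun i => a i.succ - (y + a 0)) (τ := τ))
        congr 1
        ext r
        simp only [mem_setOf_eq]
        refine forall_congr' fun j => ?_
        have : (fun s => ((Fin.insertNth 0 y r : Fin (d + 2) → Eu d) (j.succAbove s).succ +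
            a (j.succAbove s).succ) - ((Fin.insertNth 0 y r : Fin (d + 2) → Eu d) 0 + a 0)) =
            fun s => r (j.succAbove s) + (a (j.succAbove s).succ - (y + a 0)) := by
          funext s
          rw [show (Fin.insertNth 0 y r : Fin (d + 2) → Eu d) = Fin.cons y r from
            Fin.insertNth_zero' y r]
          simp only [Fin.cons_succ, Fin.cons_zero]
          abel
        rw [this]
    _ = _ := by simp

end Pool.Agent.H39.Beer
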