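import Pool.Agent.H39.Beer.Lam
import Pool.Agent.H39.Beer.DHJm

/-! The main theorem for sets of volume one. -/

open MeasureTheory Set Module
open scoped ENNReal

namespace Pool.Agent.H39.Beer

variable {d : ℕ}

theorem norm_le_sum (v : Eu d) : ‖v‖ ≤ ∑ s, |v s| := by
  have h1 : v = ∑ s, v s • bs d s := by
    conv_lhs => rw [← (bs d).sum_repr v]
    rfl
  calc ‖v‖ = ‖∑ s, v s • bs d s‖ := by rw [← h1]
    _ ≤ ∑ s, ‖v s • bs d s‖ := norm_sum_le _ _
    _ = ∑ s, |v s| := by
        refine Finset.sum_congr rfl fun s _ => ?_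
        rw [norm_smul, Real.norm_eq_abs]
        have : ‖bs d s‖ = 1 := by
          unfold bs
          rw [OrthonormalBasis.coe_toBasis]
          simp
        rw [this, mul_one]

/-- The comparison maps. -/
theorem exists_R {y y0 : Fin d → Eu d} {C δ : ℝ} (hδ : 0 < δ) (hC : 0 < C) (hy : δ ≤ |dt y|)
    (hyC : ∀ s s', |dt (Function.update y s (y0 s'))| ≤ C) :
    ∃ R : Eu d →ₗ[ℝ] Eu d, (∀ x, tm y (R x) = tm y0 x) ∧
      ∀ x, ‖R x‖ ≤ (d * (d * (C / δ)) + 1) * ‖x‖ := by
  have hdet : LinearMap.det (tm y) ≠ 0 := by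
    rw [det_tm]; exact abs_pos.1 (hδ.trans_le hy)
  let e : Eu d ≃ₗ[ℝ] Eu d := LinearMap.equivOfDetNeZero (tm y) hdet
  have he : ∀ x, tm y (e.symm x) = x := fun x => e.apply_symm_apply x
  refine ⟨e.symm.toLinearMap ∘ₗ tm y0, fun x => he _, fun x => ?_⟩
  set R : Eu d →ₗ[ℝ] Eu d := e.symm.toLinearMap ∘ₗ tm y0 with hR
  have hcoord : ∀ s' s, |(R (bs d s')) s| ≤ C / δ := by
    intro s' s
    have h1 := cramer y (R (bs d s')) s
    have h2 : tm y (R (bs d s')) = y0 s' := by
      rw [hR, LinearMap.comp_apply]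
      exact (he _).trans (tm_bs y0 s')
    rw [h2] at h1
    have h3 := hyC s s'
    rw [h1, abs_mul] at h3
    rw [le_div_iff₀ hδ]
    calc |(R (bs d s')) s| * δ ≤ |(R (bs d s')) s| * |dt y| := by gcongr
      _ ≤ C := h3
  have hb : ∀ s', ‖R (bs d s')‖ ≤ d * (C / δ) := by
    intro s'
    refine (norm_le_sum _).trans ?_
    calc ∑ s, |(R (bs d s')) s| ≤ ∑ _s : Fin d, C / δ := Finset.sum_le_sum fun s _ => hcoord s' s
      _ = d * (C / δ) := by simp
  have hx : x = ∑ s, x s • bs d s := by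
    conv_lhs => rw [← (bs d).sum_repr x]
    rfl
  calc ‖R x‖ = ‖∑ s, x s • R (bs d s)‖ := by
        conv_lhs => rw [hx]
        rw [map_sum]
        simp only [map_smul]
    _ ≤ ∑ s, ‖x s • R (bs d s)‖ := norm_sum_le _ _
    _ ≤ ∑ _s : Fin d, ‖x‖ * (d * (C / δ)) := by
        refine Finset.sum_le_sum fun s _ => ?_
        rw [norm_smul]
        gcongr
        · exact PiLp.norm_apply_le x s
        · exact hb s
    _ = (d * (d * (C / δ))) * ‖x‖ := by simp; ring
    _ ≤ _ := by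
        have := norm_nonneg x
        nlinarith

theorem main1 (d k : ℕ) (hk : k + 2 ≤ d + 1) {ε : ℝ} (hε : 0 < ε) : ∃ δ : ℝ, 0 < δ ∧
    ∀ S : Set (Eu d), MeasurableSet S → volume S = 1 →
    ∀ E0 ⊆ Cv (k + 1) S, MeasurableSet E0 →
    (Measure.pi fun _ : Fin (k + 2) => volume.restrict S) (Cv (k + 1) S \ E0) = 0 →
    ENNReal.ofReal ε ≤ (Measure.pi fun _ : Fin (k + 2) => volume.restrict S) E0 →
    ∃ X : Fin (d + 1) → Eu d, δ ≤ |dt (fun s => X s.succ - X 0)| ∧
      ∀ s : Finset (Fin (d + 1)), s.card = k + 2 →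
        convexHull ℝ (X '' (s : Set (Fin (d + 1)))) ⊆ S := by
  classical
  obtain ⟨c, hc, C, hC, δ, hδ, hP⟩ := phase1 d k hε
  have hΓ : Nonempty {J : Finset (Fin (d + 2)) // J.card = k + 2} := by
    obtain ⟨J, -, hJ⟩ := Finset.exists_subset_card_eq
      (s := (Finset.univ : Finset (Fin (d + 2)))) (n := k + 2) (by simp; omega)
    exact ⟨⟨J, hJ⟩⟩
  set CR : ℝ := d * (d * (C / δ)) + 1 with hCR
  have hCR0 : 0 < CR := by positivity
  obtain ⟨N, η, hη, c', hc', hDHJ⟩ := dhj_measure (A := Fin (k + 2) → Eu d)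
    (G := Fin (d + 2) → Eu d) {J : Finset (Fin (d + 2)) // J.card = k + 2} hc
    (C2 := CR * phiC (k + 2) (d + 2)) (mul_pos hCR0 (phiC_pos _ _))
  -- normalised measure on the ball
  set Bl : Set (Eu d) := Metric.closedBall 0 η with hBl
  have hBlm : MeasurableSet Bl := Metric.isClosed_closedBall.measurableSet
  have hBlf : volume Bl ≠ ⊤ := measure_closedBall_lt_top.ne
  have hBl0 : volume Bl ≠ 0 := (Metric.measure_closedBall_pos volume _ hη).ne'
  set K : ℝ≥0∞ := (volume Bl)⁻¹ with hK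
  have hKf : K ≠ ⊤ := ENNReal.inv_ne_top.2 hBl0
  have hK0 : K ≠ 0 := ENNReal.inv_ne_zero.2 hBlf
  set ν : Measure (Eu d) := K • volume.restrict Bl with hν
  have hνp : IsProbabilityMeasure ν := ⟨by
    rw [hν, Measure.smul_apply, Measure.restrict_apply MeasurableSet.univ, univ_inter, smul_eq_mul,
      hK, ENNReal.inv_mul_cancel hBl0 hBlf]⟩
  have hνle : ν ≤ K • volume := by
    rw [hν]
    refine Measure.le_iff.2 fun s _ => ?_
    simp only [Measure.smul_apply, smul_eq_mul]
    gcongr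
    exact Measure.restrict_le_self
  -- the threshold
  set lo : ℝ≥0∞ := K ^ (d + 2) * ENNReal.ofReal c' with hlo
  have hlof : lo ≠ ⊤ := ENNReal.mul_ne_top (ENNReal.pow_ne_top hKf) ENNReal.ofReal_ne_top
  have hlo0 : lo ≠ 0 := mul_ne_zero (pow_ne_zero _ hK0) (by simpa using hc')
  have hlor : 0 < lo.toReal := ENNReal.toReal_pos hlo0 hlof
  have hKCf : K * CC d ≠ ⊤ := ENNReal.mul_ne_top hKf (CC_fin d)
  set M1 : ℝ := (d + 1) * (K * CC d).toReal + 1 with hM1
  have hM10 : 0 < M1 := by positivity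
  set τ : ℝ := lo.toReal / (2 * M1) with hτ
  have hτ0 : 0 < τ := by positivity
  have hτlt : (d + 1) * (K * (ENNReal.ofReal τ * CC d)) < lo := by
    have h1 : (d + 1) * (K * (ENNReal.ofReal τ * CC d)) =
        ENNReal.ofReal ((d + 1) * (τ * (K * CC d).toReal)) := by
      rw [ENNReal.ofReal_mul (by positivity), ENNReal.ofReal_mul hτ0.le,
        ENNReal.ofReal_toReal hKCf, show ((d : ℝ) + 1) = ((d + 1 : ℕ) : ℝ) by push_cast; ring,
        ENNReal.ofReal_natCast]
      push_cast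
      ring
    rw [h1, ← ENNReal.ofReal_toReal hlof, ENNReal.ofReal_lt_ofReal_iff hlor]
    calc (d + 1) * (τ * (K * CC d).toReal) = τ * ((d + 1) * (K * CC d).toReal) := by ring
      _ ≤ τ * M1 := by gcongr; rw [hM1]; linarith
      _ = lo.toReal / 2 := by rw [hτ]; field_simp
      _ < lo.toReal := by linarith
  refine ⟨δ * τ, by positivity, ?_⟩
  intro S hS hS1 E0 hE0 hE0m hnull hE0ε
  obtain ⟨y, b, F, hFm, hF1, hFc, hy, hyC, hFE⟩ := hP S hS hS1 E0 hE0 hE0m hnull hE0ε
  choose R hR hRb using fun i => exists_R hδ hC (hy i) (hyC i)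
  let ψ : {J : Finset (Fin (d + 2)) // J.card = k + 2} → (Fin (d + 2) → Eu d) →
      (Fin (k + 2) → Eu d) := fun J g i => R i (phi J g i)
  have hψm : ∀ J, Measurable (ψ J) := by
    intro J
    refine (continuous_pi fun i => ?_ : Continuous (ψ J)).measurable
    exact (LinearMap.continuous_of_finiteDimensional (R i)).comp
      ((continuous_apply i).comp (phi_cont J))
  have hψb : ∀ J g, ‖ψ J g‖ ≤ CR * phiC (k + 2) (d + 2) * ‖g‖ := by
    intro J g
    rw [pi_norm_le_iff_of_nonneg (by have := phiC_pos (k + 2) (d + 2); positivity)]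
    intro i
    calc ‖R i (phi J g i)‖ ≤ CR * ‖phi J g i‖ := hRb i _
      _ ≤ CR * (phiC (k + 2) (d + 2) * ‖g‖) := by gcongr; exact phi_bound J g i
      _ = _ := by ring
  obtain ⟨p, l0, a, g, H, hl0, hHm, hHη, hHc, hH⟩ := hDHJ ψ hψm hψb F hFm hF1 hFc
  -- the constant part
  let el : Fin N → Fin (d + 2) → Eu d := fun l j =>
    (p l).elim (tm (y 0) (g l j))
      (fun w => ∑ i, lam (k + 2) (d + 2) j i • tm (y i) (ψ w (g l) i))
  let cst : Fin (d + 2) → Eu d := fun j =>
    ∑ i, lam (k + 2) (d + 2) j i • (b i + tm (y i) (a i)) + ∑ l, el l j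
  let xJ : (Fin (d + 2) → Eu d) → {J : Finset (Fin (d + 2)) // J.card = k + 2} →
      Fin (k + 2) → Eu d := fun h J i =>
    b i + tm (y i) ((a + ∑ l, ψ ((p l).getD J)
      (g l + (Pi.single l0 h : Fin N → Fin (d + 2) → Eu d) l)) i)
  have hxJ : ∀ h ∈ H, ∀ J, xJ h J ∈ E0 := fun h hh J => hFE _ (hH h hh J)
  have hcomb : ∀ h J, ∀ j ∈ J.1, ∑ i, lam (k + 2) (d + 2) j i • xJ h J i =
      cst j + tm (y 0) (h j) := by
    intro h J j hj
    have h1 : ∀ i, xJ h J i = (b i + tm (y i) (a i)) + ∑ l, tm (y i) (ψ ((p l).getD J)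
      (g l + (Pi.single l0 h : Fin N → Fin (d + 2) → Eu d) l) i) := by
      intro i
      simp only [xJ, Pi.add_apply, Finset.sum_apply, map_add, map_sum]
      abel
    simp_rw [h1, smul_add (lam (k + 2) (d + 2) j _) (b _ + tm (y _) (a _)), Finset.sum_add_distrib]
    simp only [cst]
    rw [add_assoc]
    congr 1
    simp_rw [Finset.smul_sum]
    rw [Finset.sum_comm]
    have h2 : ∀ l, ∑ i, lam (k + 2) (d + 2) j i • tm (y i) (ψ ((p l).getD J)
        (g l + (Pi.single l0 h : Fin N → Fin (d + 2) → Eu d) l) i) =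
        el l j + if l = l0 then tm (y 0) (h j) else 0 := by
      intro l
      have hT0 : ∀ g' : Fin (d + 2) → Eu d, ∑ i, lam (k + 2) (d + 2) j i • tm (y i) (ψ J g' i) =
          tm (y 0) (g' j) := by
        intro g'
        rw [← phi_spec J g' hj, map_sum]
        refine Finset.sum_congr rfl fun i _ => ?_
        rw [map_smul]
        congr 1
        exact hR i _
      by_cases hl : l = l0
      · subst hl
        simp only [el, hl0, Option.getD_none, Option.elim_none, Pi.single_eq_same, if_true]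
        rw [hT0, Pi.add_apply, map_add]
      · rw [if_neg hl, add_zero, Pi.single_eq_of_ne hl, add_zero]
        rcases hpl : p l with _ | w
        · simp only [el, hpl, Option.getD_none, Option.elim_none]
          exact hT0 _
        · simp only [el, hpl, Option.getD_some, Option.elim_some]
    rw [Finset.sum_congr rfl fun l _ => h2 l, Finset.sum_add_distrib]
    simp
  -- inverse of tm (y 0)
  have hdet0 : LinearMap.det (tm (y 0)) ≠ 0 := by
    rw [det_tm]; exact abs_pos.1 (hδ.trans_le (hy 0))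
  let e0 : Eu d ≃ₗ[ℝ] Eu d := LinearMap.equivOfDetNeZero (tm (y 0)) hdet0
  have he0 : ∀ x, tm (y 0) (e0.symm x) = x := fun x => e0.apply_symm_apply x
  let a' : Fin (d + 2) → Eu d := fun j => e0.symm (cst j)
  let Z : (Fin (d + 2) → Eu d) → Fin (d + 2) → Eu d := fun h j => tm (y 0) (h j + a' j)
  have hZ : ∀ h j, Z h j = cst j + tm (y 0) (h j) := by
    intro h j
    simp only [Z, a', map_add, he0]
    abel
  -- choose h
  have hQ := lemQ (ν := ν) hKf hνle a' (τ := τ)
  have hpiH : lo ≤ (Measure.pi fun _ : Fin (d + 2) => ν) H := by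
    have hfin : IsFiniteMeasure ((volume : Measure (Eu d)).restrict Bl) :=
      ⟨by simpa using hBlf.lt_top⟩
    have h1 : (Measure.pi fun _ : Fin (d + 2) => ν) =
        K ^ (d + 2) • (volume : Measure (Fin (d + 2) → Eu d)).restrict (univ.pi fun _ => Bl) := by
      rw [← pi_restrict_eq]
      exact pi_const_smul _ hKf
    rw [h1, Measure.smul_apply, smul_eq_mul, Measure.restrict_apply hHm, hlo]
    gcongr
    refine hHc.trans (measure_mono fun h hh => ⟨hh, fun j _ => ?_⟩)
    have := hHη hh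
    rw [mem_closedBall_zero_iff] at this
    rw [mem_closedBall_zero_iff]
    exact (norm_le_pi_norm h j).trans this
  obtain ⟨h, hhH, j0, hj0⟩ : ∃ h ∈ H, ∃ j : Fin (d + 1),
      τ ≤ |dt (fun s => (h (j.succAbove s).succ + a' (j.succAbove s).succ) - (h 0 + a' 0))| := by
    by_contra hcon
    push Not at hcon
    have h1 : H ⊆ {x | ∀ j : Fin (d + 1), |dt (fun s => (x (j.succAbove s).succ +
        a' (j.succAbove s).succ) - (x 0 + a' 0))| < τ} := fun x hx j => hcon x hx j
    have h2 := (hpiH.trans (measure_mono h1)).trans hQ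
    exact absurd h2 (not_le.2 hτlt)
  let ι : Fin (d + 1) → Fin (d + 2) := Fin.cons 0 (fun s => (j0.succAbove s).succ)
  have hι : Function.Injective ι := by
    have h1 : Function.Injective fun s : Fin d => (j0.succAbove s).succ :=
      (Fin.succ_injective _).comp Fin.succAbove_right_injective
    refine Fin.cons_injective_iff.2 ⟨?_, h1⟩
    rintro ⟨s, hs⟩
    exact Fin.succ_ne_zero _ hs
  refine ⟨fun i => Z h (ι i), ?_, ?_⟩
  · have h1 : (fun s : Fin d => Z h (ι s.succ) - Z h (ι 0)) =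
        fun s => tm (y 0) ((h (j0.succAbove s).succ + a' (j0.succAbove s).succ) - (h 0 + a' 0)) := by
      funext s
      simp only [Z, ι, Fin.cons_succ, Fin.cons_zero, map_sub]
    show δ * τ ≤ |dt (fun s : Fin d => Z h (ι s.succ) - Z h (ι 0))|
    rw [h1, dt_comp, det_tm, abs_mul]
    exact mul_le_mul (hy 0) hj0 hτ0.le (abs_nonneg _)
  · intro s hs
    set J : {J : Finset (Fin (d + 2)) // J.card = k + 2} :=
      ⟨s.map ⟨ι, hι⟩, by rw [Finset.card_map, hs]⟩ with hJ
    have h1 := hE0 (hxJ h hhH J)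
    refine (convexHull_min ?_ (convex_convexHull ℝ (range (xJ h J)))).trans h1
    rintro _ ⟨i, hi, rfl⟩
    have hiJ : ι i ∈ J.1 := by
      rw [hJ]; exact Finset.mem_map.2 ⟨i, hi, rfl⟩
    show Z h (ι i) ∈ _
    rw [hZ, ← hcomb h J (ι i) hiJ]
    exact (mem_hull_range _ _).2 ⟨_, ⟨fun _ => lam_nonneg _ _ _ _, lam_sum _ _ _⟩, rfl⟩

end Pool.Agent.H39.Beer
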