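import Pool.Agent.H39.Beer.Basic
import Pool.Graph.R_pool_sql_team_51e01f96.H.helper22_.Choquet

/-! The set of `(k+1)`-tuples whose convex hull lies in a Borel set is null measurable. -/

open MeasureTheory Set
open scoped ENNReal

namespace Pool.Agent.H39.Beer

variable {d : ℕ}

theorem analytic_null {X : Type} [TopologicalSpace X] [MeasurableSpace X] [BorelSpace X]
    [T2Space X] (μ : Measure X) [IsFiniteMeasure μ] [μ.OuterRegular] {A : Set X}
    (hA : AnalyticSet A) : NullMeasurableSet A μ := by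
  -- inner approximation by compact sets
  have inner : ∀ c < μ A, ∃ K ⊆ A, IsCompact K ∧ c ≤ μ K := by
    intro c hc
    obtain ⟨K, hKA, hK, h⟩ := Pool.Agent.H.helper22.Choquet.choquet μ (fun w a => w = a) hA
      (c := c) (by simpa using hc)
    refine ⟨K, hKA, hK, ?_⟩
    refine le_of_forall_gt fun r hr => ?_
    obtain ⟨U, hKU, hU, hUr⟩ := K.exists_isOpen_lt_of_lt r hr
    have := h U hU hKU
    simp only [exists_eq_right', setOf_mem_eq] at this
    exact this.trans hUr
  by_cases h0 : μ A = 0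
  · exact NullMeasurableSet.of_null h0
  have hfin : μ A ≠ ⊤ := measure_ne_top _ _
  -- a sequence
  obtain ⟨u, -, hu, hulim⟩ := exists_seq_strictMono_tendsto' (pos_iff_ne_zero.2 h0)
  choose K hKA hK hKu using fun n => inner (u n) (hu n).2
  let B := ⋃ n, K n
  have hB : MeasurableSet B := MeasurableSet.iUnion fun n => (hK n).isClosed.measurableSet
  have hBA : B ⊆ A := iUnion_subset hKA
  have hle : μ A ≤ μ B := le_of_tendsto' hulim fun n => (hKu n).trans (measure_mono (subset_iUnion K n))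
  -- A ⊆ toMeasurable, difference null
  have h1 : μ (toMeasurable μ A \ B) = 0 := by
    rw [measure_diff (hBA.trans (subset_toMeasurable μ A)) hB.nullMeasurableSet (measure_ne_top _ _),
      measure_toMeasurable]
    exact tsub_eq_zero_of_le hle
  have h2 : A =ᵐ[μ] B := by
    rw [ae_eq_set]
    exact ⟨measure_mono_null (diff_subset_diff_left (subset_toMeasurable μ A)) h1,
      by rw [diff_eq_empty.2 hBA]; simp⟩
  exact ⟨B, hB, h2⟩

theorem mem_hull_range {n : ℕ} (x : Fin n → Eu d) (z : Eu d) :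
    z ∈ convexHull ℝ (range x) ↔ ∃ w ∈ stdSimplex ℝ (Fin n), ∑ i, w i • x i = z := by
  constructor
  · intro hz
    let L : (Fin n → ℝ) →ₗ[ℝ] Eu d := Fintype.linearCombination ℝ x
    have hL : ∀ w, L w = ∑ i, w i • x i := fun w => Fintype.linearCombination_apply ℝ x w
    have h1 : range x ⊆ L '' stdSimplex ℝ (Fin n) := by
      rintro _ ⟨i, rfl⟩
      exact ⟨Pi.single i 1, single_mem_stdSimplex ℝ i, by simp [hL, Pi.single_apply]⟩
    have h2 : Convex ℝ (L '' stdSimplex ℝ (Fin n)) := (convex_stdSimplex ℝ (Fin n)).linear_image L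
    obtain ⟨w, hw, h⟩ := convexHull_min h1 h2 hz
    exact ⟨w, hw, by rw [← hL]; exact h⟩
  · rintro ⟨w, hw, rfl⟩
    exact (convex_convexHull ℝ (range x)).sum_mem (fun i _ => hw.1 i) hw.2
      fun i _ => subset_convexHull ℝ _ (mem_range_self i)

/-- The tuples whose convex hull lies in `S`. -/
def Cv (k : ℕ) (S : Set (Eu d)) : Set (Fin (k + 1) → Eu d) := {x | convexHull ℝ (range x) ⊆ S}

theorem Cv_mem {k : ℕ} {S : Set (Eu d)} {x : Fin (k + 1) → Eu d} (hx : x ∈ Cv k S)
    {w : Fin (k + 1) → ℝ} (h0 : ∀ i, 0 ≤ w i) (h1 : ∑ i, w i = 1) : ∑ i, w i • x i ∈ S :=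
  hx ((mem_hull_range x _).2 ⟨w, ⟨h0, h1⟩, rfl⟩)

theorem Cv_mem' {k : ℕ} {S : Set (Eu d)} {x : Fin (k + 1) → Eu d} (hx : x ∈ Cv k S) (i) :
    x i ∈ S := hx (subset_convexHull ℝ _ (mem_range_self i))

theorem Cv_analytic {k : ℕ} {S : Set (Eu d)} (hS : MeasurableSet S) :
    AnalyticSet (Cv k S)ᶜ := by
  have : (Cv k S)ᶜ = Prod.fst '' {p : (Fin (k + 1) → Eu d) × (Fin (k + 1) → ℝ) |
      p.2 ∈ stdSimplex ℝ (Fin (k + 1)) ∧ ∑ i, p.2 i • p.1 i ∉ S} := by
    ext x
    simp only [Cv, mem_compl_iff, mem_setOf_eq, mem_image, Prod.exists, exists_and_right,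
      exists_eq_right, not_subset]
    constructor
    · rintro ⟨z, hz, hzS⟩
      obtain ⟨w, hw, rfl⟩ := (mem_hull_range x z).1 hz
      exact ⟨w, hw, hzS⟩
    · rintro ⟨w, hw, h⟩
      exact ⟨_, (mem_hull_range x _).2 ⟨w, hw, rfl⟩, h⟩
  rw [this]
  refine MeasurableSet.analyticSet_image ?_ measurable_fst
  refine MeasurableSet.inter ?_ ?_
  · exact measurable_snd (isClosed_stdSimplex ℝ (Fin (k + 1))).measurableSet
  · have : Measurable fun p : (Fin (k + 1) → Eu d) × (Fin (k + 1) → ℝ) => ∑ i, p.2 i • p.1 i := by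
      fun_prop
    exact this hS.compl

theorem Cv_null {k : ℕ} {S : Set (Eu d)} (hS : MeasurableSet S)
    (μ : Measure (Fin (k + 1) → Eu d)) [IsFiniteMeasure μ] : NullMeasurableSet (Cv k S) μ := by
  have := (analytic_null μ (Cv_analytic (k := k) hS)).compl
  rwa [compl_compl] at this

end Pool.Agent.H39.Beer
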