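import Pool.Agent.H39.Beer.LemQ

/-! Phase 1: a set with large index of convexity has a dense product-like piece. -/

open MeasureTheory Set Module
open scoped ENNReal

namespace Pool.Agent.H39.Beer

variable {d k : ℕ}

/-- The weights. -/
noncomputable def wt (d : ℕ) {k : ℕ} (t : Fin (k + 2) → Fin (d + 1) → ℝ) (i : Fin (k + 2)) :
    Fin (d + 2) → ℝ :=
  Fin.cons (1 / (d + 2) - ∑ j, t i j) (fun j => 1 / (d + 2) + t i j)

/-- The weighted averages. -/
noncomputable def uu (X : Fin (k + 2) → Fin (d + 2) → Eu d) (t : Fin (k + 2) → Fin (d + 1) → ℝ) :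
    Fin (k + 2) → Eu d := fun i => ∑ j, wt d t i j • X i j

theorem uu_apply (X : Fin (k + 2) → Fin (d + 2) → Eu d) (t : Fin (k + 2) → Fin (d + 1) → ℝ) (i) :
    uu X t i = (1 / (d + 2) : ℝ) • (∑ j, X i j) + ∑ j, t i j • (X i j.succ - X i 0) := by
  simp only [uu, wt]
  rw [Fin.sum_univ_succ, Fin.sum_univ_succ (fun j => X i j)]
  simp only [Fin.cons_zero, Fin.cons_succ, sub_smul, add_smul, Finset.sum_add_distrib, smul_add,
    smul_sub, Finset.sum_sub_distrib, Finset.sum_smul, Finset.smul_sum]
  abel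

theorem uu_add (X : Fin (k + 2) → Fin (d + 2) → Eu d) (t r : Fin (k + 2) → Fin (d + 1) → ℝ) (i) :
    uu X (t + r) i = uu X t i + ∑ j, r i j • (X i j.succ - X i 0) := by
  rw [uu_apply, uu_apply, add_assoc, ← Finset.sum_add_distrib]
  congr 1
  refine Finset.sum_congr rfl fun j _ => ?_
  simp [add_smul]

theorem wt_sum (t : Fin (k + 2) → Fin (d + 1) → ℝ) (i) : ∑ j, wt d t i j = 1 := by
  simp only [wt]
  rw [Fin.sum_univ_succ]
  simp only [Fin.cons_zero, Fin.cons_succ, Finset.sum_add_distrib, Finset.sum_const,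
    Finset.card_univ, Fintype.card_fin, nsmul_eq_mul]
  push_cast
  field_simp
  ring

/-- The radius. -/
noncomputable def rad (d : ℕ) : ℝ := 1 / (2 * (d + 2) ^ 2)

theorem rad_pos (d : ℕ) : 0 < rad d := by unfold rad; positivity

theorem coord_le {t : Fin (k + 2) → Fin (d + 1) → ℝ} {r : ℝ} (hr : 0 ≤ r) :
    t ∈ Metric.closedBall (0 : Fin (k + 2) → Fin (d + 1) → ℝ) r ↔ ∀ i j, |t i j| ≤ r := by
  rw [mem_closedBall_zero_iff, pi_norm_le_iff_of_nonneg hr]
  refine forall_congr' fun i => ?_
  rw [pi_norm_le_iff_of_nonneg hr]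
  rfl

theorem wt_ge {t : Fin (k + 2) → Fin (d + 1) → ℝ}
    (ht : t ∈ Metric.closedBall (0 : Fin (k + 2) → Fin (d + 1) → ℝ) (rad d)) (i) (j) :
    1 / (2 * ((d : ℝ) + 2)) ≤ wt d t i j := by
  rw [coord_le (rad_pos d).le] at ht
  have hd : (0:ℝ) < d + 2 := by positivity
  have hsum : |∑ j, t i j| ≤ (d + 1) * rad d := by
    calc |∑ j, t i j| ≤ ∑ j, |t i j| := Finset.abs_sum_le_sum_abs _ _
      _ ≤ ∑ _j : Fin (d + 1), rad d := Finset.sum_le_sum fun j _ => ht i j
      _ = _ := by simp
  have h1 : (d + 1) * rad d ≤ 1 / (2 * (d + 2)) := by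
    unfold rad
    rw [mul_one_div, div_le_div_iff₀ (by positivity) (by positivity)]
    nlinarith
  have h2 : rad d ≤ 1 / (2 * (d + 2)) := by
    have : rad d ≤ (d + 1) * rad d := by
      have := rad_pos d
      have hd0 : (0:ℝ) ≤ d := by positivity
      nlinarith
    linarith
  have h3 : (1:ℝ) / (d + 2) = 1 / (2 * (d + 2)) + 1 / (2 * (d + 2)) := by
    field_simp; norm_num
  refine Fin.cases ?_ (fun j => ?_) j
  · simp only [wt, Fin.cons_zero]
    have := (abs_le.1 hsum).2
    rw [h3]; linarith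
  · simp only [wt, Fin.cons_succ]
    have := (abs_le.1 (ht i j)).1
    rw [h3]; linarith

theorem uu_cont : Continuous fun p : (Fin (k + 2) → Fin (d + 2) → Eu d) ×
    (Fin (k + 2) → Fin (d + 1) → ℝ) => uu p.1 p.2 := by
  refine continuous_pi fun i => ?_
  simp_rw [uu_apply]
  fun_prop

/-- A good configuration. -/
theorem chooseX (d k : ℕ) {ε : ℝ} (hε : 0 < ε) : ∃ c : ℝ, 0 < c ∧ ∃ δ : ℝ, 0 < δ ∧
    ∀ S : Set (Eu d), MeasurableSet S → volume S = 1 →
    ∀ E0 ⊆ Cv (k + 1) S, MeasurableSet E0 →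
    (Measure.pi fun _ : Fin (k + 2) => volume.restrict S) (Cv (k + 1) S \ E0) = 0 →
    ENNReal.ofReal ε ≤ (Measure.pi fun _ : Fin (k + 2) => volume.restrict S) E0 →
    ∃ X : Fin (k + 2) → Fin (d + 2) → Eu d,
      ENNReal.ofReal c * volume (Metric.closedBall (0 : Fin (k + 2) → Fin (d + 1) → ℝ) (rad d)) ≤
        volume {t | t ∈ Metric.closedBall (0 : Fin (k + 2) → Fin (d + 1) → ℝ) (rad d) ∧
          uu X t ∈ E0} ∧
      ∀ i, ∃ j : Fin (d + 1), δ ≤ |dt (fun s => X i (j.succAbove s).succ - X i 0)| := by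
  obtain ⟨c, hc, hB⟩ := stepB d k (d + 1) hε (β := 1 / (2 * ((d : ℝ) + 2))) (by positivity)
  -- choose δ
  have hCC := CC_fin d
  set M : ℝ := (k + 2) * ((d + 1) * ((CC d).toReal)) + 1 with hM
  have hM0 : 0 < M := by positivity
  refine ⟨c / 2, by positivity, c / (4 * M), by positivity, ?_⟩
  intro S hS hS1 E0 hE0 hE0m hnull hE0ε
  have := prob_restrict hS1
  set δ := c / (4 * M) with hδ
  have hδ0 : 0 < δ := by positivity
  set P := (Measure.pi fun _ : Fin (k + 2) =>
      Measure.pi fun _ : Fin (d + 2) => (volume : Measure (Eu d)).restrict S) with hP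
  set T0 := Metric.closedBall (0 : Fin (k + 2) → Fin (d + 1) → ℝ) (rad d) with hT0
  have hT0m : MeasurableSet T0 := Metric.isClosed_closedBall.measurableSet
  have hT0fin : volume T0 ≠ ⊤ := measure_closedBall_lt_top.ne
  have hT0pos : volume T0 ≠ 0 := (Metric.measure_closedBall_pos volume _ (rad_pos d)).ne'
  have hMset : MeasurableSet {p : (Fin (k + 2) → Fin (d + 2) → Eu d) ×
      (Fin (k + 2) → Fin (d + 1) → ℝ) | uu p.1 p.2 ∈ E0} := uu_cont.measurable hE0m
  -- Fubini
  let F : (Fin (k + 2) → Fin (d + 2) → Eu d) → ℝ≥0∞ := fun X =>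
    (volume.restrict T0) {t | uu X t ∈ E0}
  have hFm : Measurable F := measurable_measure_prodMk_left hMset
  have hfub : ∫⁻ X, F X ∂P = ∫⁻ t in T0, P {X | uu X t ∈ E0} := by
    have h1 : _ = ∫⁻ X, F X ∂P := Measure.prod_apply (μ := P) (ν := volume.restrict T0) hMset
    have h2 : _ = ∫⁻ t in T0, P {X | uu X t ∈ E0} :=
      Measure.prod_apply_symm (μ := P) (ν := volume.restrict T0) hMset
    rw [← h1, ← h2]
  have hlow : ENNReal.ofReal c * volume T0 ≤ ∫⁻ X, F X ∂P := by
    rw [hfub]
    calc ENNReal.ofReal c * volume T0 = ∫⁻ _t in T0, ENNReal.ofReal c := by simp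
      _ ≤ _ := by
        refine setLIntegral_mono' hT0m fun t ht => ?_
        exact hB S hS hS1 E0 hE0 hE0m hnull hE0ε (wt d t) (fun i j => wt_ge ht i j)
          (fun i => wt_sum t i)
  -- the good event
  let Gd : Set (Fin (k + 2) → Fin (d + 2) → Eu d) := {X | ENNReal.ofReal (c / 2) * volume T0 ≤ F X}
  have hGd : MeasurableSet Gd := measurableSet_le measurable_const hFm
  have hFle : ∀ X, F X ≤ volume T0 := fun X => by
    calc F X ≤ (volume.restrict T0) univ := measure_mono (subset_univ _)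
      _ = volume T0 := by simp
  have hPG : ENNReal.ofReal (c / 2) ≤ P Gd := by
    have h1 : ∫⁻ X, F X ∂P ≤ volume T0 * P Gd + ENNReal.ofReal (c / 2) * volume T0 := by
      calc ∫⁻ X, F X ∂P ≤ ∫⁻ X, (Gd.indicator (fun _ => volume T0) X +
            ENNReal.ofReal (c / 2) * volume T0) ∂P := by
            refine lintegral_mono fun X => ?_
            by_cases hX : X ∈ Gd
            · rw [indicator_of_mem hX]
              exact (hFle X).trans le_self_add
            · rw [indicator_of_notMem hX, zero_add]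
              exact (not_le.1 hX).le
        _ = _ := by
            rw [lintegral_add_right _ measurable_const, lintegral_indicator_const hGd]
            simp
    have h2 : ENNReal.ofReal c = ENNReal.ofReal (c / 2) + ENNReal.ofReal (c / 2) := by
      rw [← ENNReal.ofReal_add (by positivity) (by positivity)]; congr 1; ring
    have h3 := hlow.trans h1
    rw [h2, add_mul] at h3
    have h4 : ENNReal.ofReal (c / 2) * volume T0 ≠ ⊤ := ENNReal.mul_ne_top ENNReal.ofReal_ne_top hT0fin
    have h5 := (ENNReal.add_le_add_iff_right h4).1 h3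
    rw [mul_comm] at h5
    exact (ENNReal.mul_le_mul_iff_right hT0pos hT0fin).1 h5
  -- the bad events
  let Bd : Fin (k + 2) → Set (Fin (k + 2) → Fin (d + 2) → Eu d) := fun i =>
    {X | ∀ j : Fin (d + 1), |dt (fun s => X i (j.succAbove s).succ - X i 0)| < δ}
  have hBd : ∀ i, P (Bd i) ≤ (d + 1) * (ENNReal.ofReal δ * CC d) := by
    intro i
    have h1 := lemQ (ν := volume.restrict S) (K := 1) (by simp)
      (by rw [one_smul]; exact Measure.restrict_le_self) (fun _ => 0) (τ := δ)
    simp only [add_zero, one_mul] at h1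
    refine le_trans (le_of_eq ?_) h1
    have hm : MeasurableSet {x : Fin (d + 2) → Eu d | ∀ j : Fin (d + 1),
        |dt (fun s => x (j.succAbove s).succ - x 0)| < δ} := by
      rw [show {x : Fin (d + 2) → Eu d | ∀ j : Fin (d + 1),
        |dt (fun s => x (j.succAbove s).succ - x 0)| < δ} =
        ⋂ j : Fin (d + 1), {x | |dt (fun s => x (j.succAbove s).succ - x 0)| < δ} by ext; simp]
      refine MeasurableSet.iInter fun j => measurableSet_lt ?_ measurable_const
      exact (dt_cont.comp (by fun_prop)).abs.measurable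
    exact (measurePreserving_eval (fun _ : Fin (k + 2) =>
      Measure.pi fun _ : Fin (d + 2) => (volume : Measure (Eu d)).restrict S) i).measure_preimage
        hm.nullMeasurableSet
  have hBdU : P (⋃ i, Bd i) < ENNReal.ofReal (c / 2) := by
    calc P (⋃ i, Bd i) ≤ ∑ i, P (Bd i) := by
          refine (measure_iUnion_le _).trans ?_
          rw [tsum_fintype]
      _ ≤ ∑ _i : Fin (k + 2), (d + 1) * (ENNReal.ofReal δ * CC d) :=
          Finset.sum_le_sum fun i _ => hBd i
      _ = ENNReal.ofReal ((k + 2) * ((d + 1) * (δ * (CC d).toReal))) := by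
          rw [Finset.sum_const, Finset.card_univ, Fintype.card_fin, nsmul_eq_mul,
            ENNReal.ofReal_mul (by positivity), ENNReal.ofReal_mul (by positivity),
            ENNReal.ofReal_mul (by positivity), ENNReal.ofReal_toReal hCC]
          congr 1
          · rw [show ((k : ℝ) + 2) = ((k + 2 : ℕ) : ℝ) by push_cast; ring, ENNReal.ofReal_natCast]
          · congr 1
            rw [show ((d : ℝ) + 1) = ((d + 1 : ℕ) : ℝ) by push_cast; ring, ENNReal.ofReal_natCast]
            push_cast; rfl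
      _ < ENNReal.ofReal (c / 2) := by
          rw [ENNReal.ofReal_lt_ofReal_iff (by positivity)]
          have h1 : (k + 2) * ((d + 1) * (δ * (CC d).toReal)) =
              δ * ((k + 2) * ((d + 1) * (CC d).toReal)) := by ring
          rw [h1]
          calc δ * ((k + 2) * ((d + 1) * (CC d).toReal)) ≤ δ * M := by
                gcongr
                rw [hM]; linarith
            _ = c / 4 := by rw [hδ]; field_simp
            _ < c / 2 := by linarith
  -- choose
  obtain ⟨X, hX1, hX2⟩ : ∃ X ∈ Gd, X ∉ ⋃ i, Bd i := by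
    by_contra hcon
    push Not at hcon
    have : P Gd ≤ P (⋃ i, Bd i) := measure_mono hcon
    exact absurd (hPG.trans this) (not_le.2 hBdU)
  refine ⟨X, ?_, ?_⟩
  · have h1 : F X = volume {t | t ∈ T0 ∧ uu X t ∈ E0} := by
      have hsl : MeasurableSet {t | uu X t ∈ E0} := measurable_prodMk_left hMset
      show (volume.restrict T0) {t | uu X t ∈ E0} = _
      rw [Measure.restrict_apply hsl]
      congr 1
      ext t; simp [and_comm]
    rw [← h1]; exact hX1
  · intro i
    by_contra hcon
    push Not at hcon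
    exact hX2 (mem_iUnion.2 ⟨i, hcon⟩)

end Pool.Agent.H39.Beer
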