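import Pool.Agent.H39.Beer.Phase1

/-! Phase 1, continued: bounded mixed determinants and the dense piece. -/

open MeasureTheory Set Module
open scoped ENNReal

namespace Pool.Agent.H39.Beer

variable {d k : ℕ}

/-- The difference vectors. -/
noncomputable def vv (X : Fin (k + 2) → Fin (d + 2) → Eu d) (p : Fin (k + 2) × Fin (d + 1)) :
    Eu d := X p.1 p.2.succ - X p.1 0

theorem uu_add' (X : Fin (k + 2) → Fin (d + 2) → Eu d) (t r : Fin (k + 2) → Fin (d + 1) → ℝ) (i) :
    uu X (t + r) i = uu X t i + ∑ j, r i j • vv X (i, j) := uu_add X t r i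

/-- The shift map attached to a choice of `d` directions. -/
noncomputable def sh (q : Fin d → Fin (k + 2) × Fin (d + 1)) (c : Eu d) :
    Fin (k + 2) → Fin (d + 1) → ℝ := fun i j => ∑ s, if q s = (i, j) then c s else 0

theorem sh_cont (q : Fin d → Fin (k + 2) × Fin (d + 1)) : Continuous (sh q : Eu d → _) := by
  refine continuous_pi fun i => continuous_pi fun j => ?_
  refine continuous_finset_sum _ fun s _ => ?_
  split_ifs
  · fun_prop
  · exact continuous_const

theorem abs_sum_ite_le {n : ℕ} (c : Eu d) (P : Fin d → Prop) [DecidablePred P] {r : ℝ}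
    (hr : 0 ≤ r) (hc : ‖c‖ ≤ r / (d + 1)) (_hn : n = d) : |∑ s, if P s then c s else 0| ≤ r := by
  calc |∑ s, if P s then c s else 0| ≤ ∑ s, |if P s then c s else 0| :=
        Finset.abs_sum_le_sum_abs _ _
    _ ≤ ∑ _s : Fin d, r / (d + 1) := by
        refine Finset.sum_le_sum fun s _ => ?_
        split_ifs
        · exact (by simpa using PiLp.norm_apply_le c s : |c s| ≤ ‖c‖).trans hc
        · simp; positivity
    _ = d * (r / (d + 1)) := by simp
    _ ≤ r := by
        rw [mul_div_assoc', div_le_iff₀ (by positivity)]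
        nlinarith

theorem sum_sh (X : Fin (k + 2) → Fin (d + 2) → Eu d) (q : Fin d → Fin (k + 2) × Fin (d + 1))
    (c : Eu d) : ∑ i, ∑ j, sh q c i j • vv X (i, j) = tm (fun s => vv X (q s)) c := by
  rw [tm_apply]
  simp only [sh, Finset.sum_smul]
  rw [← Finset.sum_product' (f := fun i j => ∑ s, (if q s = (i, j) then c s else 0) • vv X (i, j)),
    Finset.sum_comm]
  refine Finset.sum_congr rfl fun s _ => ?_
  rw [Finset.sum_eq_single (q s)]
  · simp
  · intro p _ hp
    rw [if_neg (fun h => hp (by rw [h])), zero_smul]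
  · intro h; exact absurd (Finset.mem_product.2 ⟨Finset.mem_univ _, Finset.mem_univ _⟩) h

theorem dt_smul (a : ℝ) (y : Fin d → Eu d) : dt (fun s => a • y s) = a ^ d * dt y := by
  unfold dt
  have := (bs d).det.map_smul_univ (fun _ => a) y
  simpa using this

/-- The big radius constant. -/
noncomputable def volB (d k : ℕ) : ℝ≥0∞ :=
  volume (Metric.closedBall (0 : Fin (k + 2) → Fin (d + 1) → ℝ) (2 * rad d))

noncomputable def volT (d k : ℕ) : ℝ≥0∞ :=
  volume (Metric.closedBall (0 : Fin (k + 2) → Fin (d + 1) → ℝ) (rad d))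

theorem volB_fin (d k : ℕ) : volB d k ≠ ⊤ := measure_closedBall_lt_top.ne

theorem volB_pos (d k : ℕ) : volB d k ≠ 0 :=
  (Metric.measure_closedBall_pos volume _ (by have := rad_pos d; positivity)).ne'

theorem volT_fin (d k : ℕ) : volT d k ≠ ⊤ := measure_closedBall_lt_top.ne

theorem volT_pos (d k : ℕ) : volT d k ≠ 0 :=
  (Metric.measure_closedBall_pos volume _ (rad_pos d)).ne'

/-- Slices. -/
theorem slice' {R : Type} [MeasurableSpace R] (rho : Measure R) [SFinite rho]
    {T : Set (Fin (k + 2) → Fin (d + 1) → ℝ)} (hT : MeasurableSet T)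
    (hT0 : T ⊆ Metric.closedBall 0 (rad d)) {Rg : Set R} (hRg : MeasurableSet Rg)
    (hR1 : rho Rg ≠ ⊤) {L : R → (Fin (k + 2) → Fin (d + 1) → ℝ)} (hL : Measurable L)
    (hsub : ∀ r ∈ Rg, ∀ i j, |L r i j| ≤ rad d) {c : ℝ≥0∞} (hc : c * volT d k ≤ volume T) :
    ∃ t, rho Rg * (c * volT d k) ≤ volB d k * rho (Rg ∩ {r | t + L r ∈ T}) := by
  obtain ⟨t, -, h⟩ := slice (volume : Measure (Fin (k + 2) → Fin (d + 1) → ℝ)) rho hT
    (Big := Metric.closedBall 0 (2 * rad d)) Metric.isClosed_closedBall.measurableSet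
    (volB_pos d k) (volB_fin d k) hRg hR1 hL (fun r hr t ht => by
      have h1 := (coord_le (rad_pos d).le).1 (hT0 ht)
      rw [coord_le (by have := rad_pos d; positivity)]
      intro i j
      have h2 := hsub r hr i j
      calc |(t - L r) i j| = |t i j - L r i j| := rfl
        _ ≤ |t i j| + |L r i j| := abs_sub _ _
        _ ≤ 2 * rad d := by linarith [h1 i j])
  exact ⟨t, le_trans (by gcongr) h⟩

/-- Step D. -/
theorem stepD (d k : ℕ) {c : ℝ} (hc : 0 < c) : ∃ C : ℝ, 0 < C ∧
    ∀ S : Set (Eu d), volume S = 1 →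
    ∀ E0 ⊆ Cv (k + 1) S, MeasurableSet E0 →
    ∀ X : Fin (k + 2) → Fin (d + 2) → Eu d,
      ENNReal.ofReal c * volT d k ≤
        volume {t | t ∈ Metric.closedBall (0 : Fin (k + 2) → Fin (d + 1) → ℝ) (rad d) ∧
          uu X t ∈ E0} →
    ∀ q : Fin d → Fin (k + 2) × Fin (d + 1), |dt (fun s => vv X (q s))| ≤ C := by
  set Rg : Set (Eu d) := Metric.closedBall 0 (rad d / (d + 1)) with hRg
  have hr : 0 < rad d / (d + 1) := by have := rad_pos d; positivity
  have hRgf : volume Rg ≠ ⊤ := measure_closedBall_lt_top.ne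
  have hRg0 : volume Rg ≠ 0 := (Metric.measure_closedBall_pos volume _ hr).ne'
  -- lower bound for the slice
  set m : ℝ≥0∞ := volume Rg * (ENNReal.ofReal c * volT d k) / volB d k with hm
  have hmf : m ≠ ⊤ := by
    rw [hm]
    exact ENNReal.div_ne_top (ENNReal.mul_ne_top hRgf (ENNReal.mul_ne_top ENNReal.ofReal_ne_top
      (volT_fin d k))) (volB_pos d k)
  have hm0 : m ≠ 0 := by
    rw [hm]
    refine (ENNReal.div_pos ?_ (volB_fin d k)).ne'
    exact mul_ne_zero hRg0 (mul_ne_zero (by simpa using hc) (volT_pos d k))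
  have hmr : 0 < m.toReal := ENNReal.toReal_pos hm0 hmf
  refine ⟨((k : ℝ) + 2) ^ d / m.toReal, by positivity, ?_⟩
  intro S hS1 E0 hE0 hE0m X hX q
  set T := {t | t ∈ Metric.closedBall (0 : Fin (k + 2) → Fin (d + 1) → ℝ) (rad d) ∧
          uu X t ∈ E0} with hT
  have hTm : MeasurableSet T := by
    refine Metric.isClosed_closedBall.measurableSet.inter ?_
    exact (show Continuous fun t => uu X t from
      uu_cont.comp (continuous_const.prodMk continuous_id)).measurable hE0m
  obtain ⟨t, ht⟩ := slice' (volume : Measure (Eu d)) hTm (fun t ht => ht.1)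
    (Rg := Rg) Metric.isClosed_closedBall.measurableSet hRgf (sh_cont q).measurable
    (fun r hr' i j => by
      refine abs_sum_ite_le (n := d) r _ (rad_pos d).le ?_ rfl
      exact mem_closedBall_zero_iff.1 hr') hX
  set A : Set (Eu d) := Rg ∩ {r | t + sh q r ∈ T} with hA
  have hmA : m ≤ volume A := by
    rw [hm]
    rw [ENNReal.div_le_iff' (volB_pos d k) (volB_fin d k)]
    exact ht
  -- the image lies in a translate of S
  set y : Fin d → Eu d := fun s => (1 / ((k : ℝ) + 2)) • vv X (q s) with hy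
  set w0 : Eu d := ∑ i, (1 / ((k : ℝ) + 2)) • uu X t i with hw0
  have himg : tm y '' A ⊆ (fun z => w0 + z) ⁻¹' S := by
    rintro _ ⟨c, hcA, rfl⟩
    have h1 : uu X (t + sh q c) ∈ Cv (k + 1) S := hE0 hcA.2.2
    have h2 := Cv_mem h1 (w := fun _ => 1 / ((k : ℝ) + 2)) (fun _ => by positivity) (by
      rw [Finset.sum_const, Finset.card_univ, Fintype.card_fin, nsmul_eq_mul]
      push_cast
      field_simp
      ring)
    have h3 : ∑ i, (1 / ((k : ℝ) + 2)) • uu X (t + sh q c) i = w0 + tm y c := by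
      simp_rw [uu_add', smul_add, Finset.sum_add_distrib]
      rw [hw0, ← Finset.smul_sum (s := Finset.univ) (f := fun i => ∑ j, sh q c i j • vv X (i, j)),
        sum_sh, tm_apply, tm_apply, Finset.smul_sum]
      congr 1
      refine Finset.sum_congr rfl fun s _ => ?_
      rw [smul_comm]
    show w0 + tm y c ∈ S
    rw [← h3]; exact h2
  have hvol : ENNReal.ofReal |dt y| * volume A ≤ 1 := by
    rw [← vol_tm]
    refine (measure_mono himg).trans ?_
    rw [measure_preimage_add, hS1]
  have h4 : |dt y| * m.toReal ≤ 1 := by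
    have h5 : ENNReal.ofReal |dt y| * m ≤ 1 := le_trans (by gcongr) hvol
    have h6 := ENNReal.toReal_mono ENNReal.one_ne_top h5
    rwa [ENNReal.toReal_mul, ENNReal.toReal_ofReal (abs_nonneg _), ENNReal.toReal_one] at h6
  have h7 : |dt y| = (1 / ((k : ℝ) + 2)) ^ d * |dt (fun s => vv X (q s))| := by
    rw [hy, dt_smul, abs_mul, abs_of_nonneg (by positivity)]
  rw [h7] at h4
  rw [le_div_iff₀ hmr]
  have h8 : (1 / ((k : ℝ) + 2)) ^ d * (((k : ℝ) + 2) ^ d) = 1 := by
    rw [← mul_pow, one_div_mul_cancel (by positivity), one_pow]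
  have h9 : (0:ℝ) < ((k : ℝ) + 2) ^ d := by positivity
  calc |dt (fun s => vv X (q s))| * m.toReal
      = ((1 / ((k : ℝ) + 2)) ^ d * (((k : ℝ) + 2) ^ d)) *
          (|dt (fun s => vv X (q s))| * m.toReal) := by rw [h8, one_mul]
    _ = ((k : ℝ) + 2) ^ d * ((1 / ((k : ℝ) + 2)) ^ d * |dt (fun s => vv X (q s))| * m.toReal) := by
        ring
    _ ≤ ((k : ℝ) + 2) ^ d * 1 := by gcongr
    _ = _ := mul_one _

/-- Phase 1. -/
theorem phase1 (d k : ℕ) {ε : ℝ} (hε : 0 < ε) : ∃ c : ℝ, 0 < c ∧ ∃ C : ℝ, 0 < C ∧ ∃ δ : ℝ, 0 < δ ∧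
    ∀ S : Set (Eu d), MeasurableSet S → volume S = 1 →
    ∀ E0 ⊆ Cv (k + 1) S, MeasurableSet E0 →
    (Measure.pi fun _ : Fin (k + 2) => volume.restrict S) (Cv (k + 1) S \ E0) = 0 →
    ENNReal.ofReal ε ≤ (Measure.pi fun _ : Fin (k + 2) => volume.restrict S) E0 →
    ∃ (y : Fin (k + 2) → Fin d → Eu d) (b : Fin (k + 2) → Eu d) (F : Set (Fin (k + 2) → Eu d)),
      MeasurableSet F ∧ F ⊆ Metric.closedBall 0 1 ∧ ENNReal.ofReal c ≤ volume F ∧
      (∀ i, δ ≤ |dt (y i)|) ∧ (∀ i s s', |dt (Function.update (y i) s (y 0 s'))| ≤ C) ∧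
      ∀ r ∈ F, (fun i => b i + tm (y i) (r i)) ∈ E0 := by
  obtain ⟨c0, hc0, δ, hδ, hX⟩ := chooseX d k hε
  obtain ⟨C, hC, hD⟩ := stepD d k hc0
  set Rg : Set (Fin (k + 2) → Eu d) := Metric.closedBall 0 (rad d / (d + 1)) with hRg
  have hr : 0 < rad d / (d + 1) := by have := rad_pos d; positivity
  have hRgf : volume Rg ≠ ⊤ := measure_closedBall_lt_top.ne
  have hRg0 : volume Rg ≠ 0 := (Metric.measure_closedBall_pos volume _ hr).ne'
  set m : ℝ≥0∞ := volume Rg * (ENNReal.ofReal c0 * volT d k) / volB d k with hm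
  have hmf : m ≠ ⊤ := by
    rw [hm]
    exact ENNReal.div_ne_top (ENNReal.mul_ne_top hRgf (ENNReal.mul_ne_top ENNReal.ofReal_ne_top
      (volT_fin d k))) (volB_pos d k)
  have hm0 : m ≠ 0 := by
    rw [hm]
    refine (ENNReal.div_pos ?_ (volB_fin d k)).ne'
    exact mul_ne_zero hRg0 (mul_ne_zero (by simpa using hc0) (volT_pos d k))
  have hmr : 0 < m.toReal := ENNReal.toReal_pos hm0 hmf
  refine ⟨m.toReal, hmr, C, hC, δ, hδ, ?_⟩
  intro S hS hS1 E0 hE0 hE0m hnull hE0ε
  obtain ⟨X, hXv, hXd⟩ := hX S hS hS1 E0 hE0 hE0m hnull hE0ε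
  choose σ hσ using hXd
  have hDX := hD S hS1 E0 hE0 hE0m X hXv
  set T := {t | t ∈ Metric.closedBall (0 : Fin (k + 2) → Fin (d + 1) → ℝ) (rad d) ∧
          uu X t ∈ E0} with hT
  have hTm : MeasurableSet T := by
    refine Metric.isClosed_closedBall.measurableSet.inter ?_
    exact (show Continuous fun t => uu X t from
      uu_cont.comp (continuous_const.prodMk continuous_id)).measurable hE0m
  let L : (Fin (k + 2) → Eu d) → (Fin (k + 2) → Fin (d + 1) → ℝ) := fun r i j =>
    ∑ s, if (σ i).succAbove s = j then r i s else 0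
  have hLc : Continuous L := by
    refine continuous_pi fun i => continuous_pi fun j => continuous_finset_sum _ fun s _ => ?_
    split_ifs
    · fun_prop
    · exact continuous_const
  obtain ⟨t, ht⟩ := slice' (volume : Measure (Fin (k + 2) → Eu d)) hTm (fun t ht => ht.1)
    (Rg := Rg) Metric.isClosed_closedBall.measurableSet hRgf hLc.measurable
    (fun r hr' i j => by
      refine abs_sum_ite_le (n := d) (r i) _ (rad_pos d).le ?_ rfl
      have h1 : ‖r‖ ≤ rad d / (d + 1) := mem_closedBall_zero_iff.1 hr'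
      exact (norm_le_pi_norm r i).trans h1) hXv
  refine ⟨fun i s => vv X (i, (σ i).succAbove s), fun i => uu X t i, Rg ∩ {r | t + L r ∈ T},
    ?_, ?_, ?_, ?_, ?_, ?_⟩
  · refine Metric.isClosed_closedBall.measurableSet.inter ?_
    exact (show Continuous fun r => t + L r from continuous_const.add hLc).measurable hTm
  · intro r hr'
    refine Metric.closedBall_subset_closedBall ?_ hr'.1
    have h1 : rad d ≤ 1 := by
      unfold rad
      rw [div_le_one (by positivity)]
      have : (0:ℝ) ≤ d := by positivity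
      nlinarith
    rw [div_le_one (by positivity)]
    have : (0:ℝ) ≤ d := by positivity
    linarith
  · rw [ENNReal.ofReal_toReal hmf, hm, ENNReal.div_le_iff' (volB_pos d k) (volB_fin d k)]
    exact ht
  · intro i; exact hσ i
  · intro i s s'
    have : Function.update (fun s => vv X (i, (σ i).succAbove s)) s (vv X (0, (σ 0).succAbove s')) =
        fun u => vv X (Function.update (fun s => ((i, (σ i).succAbove s) :
          Fin (k + 2) × Fin (d + 1))) s (0, (σ 0).succAbove s') u) := by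
      funext u
      by_cases h : u = s
      · subst h; simp
      · simp [h]
    rw [this]
    exact hDX _
  · intro r hr'
    have h1 : uu X (t + L r) ∈ E0 := hr'.2.2
    convert h1 using 1
    funext i
    rw [uu_add', tm_apply]
    congr 1
    simp only [L, Finset.sum_smul]
    rw [Finset.sum_comm]
    refine Finset.sum_congr rfl fun s _ => ?_
    rw [Finset.sum_eq_single ((σ i).succAbove s)]
    · simp
    · intro p _ hp
      rw [if_neg (fun h => hp h.symm), zero_smul]
    · simp

end Pool.Agent.H39.Beer
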