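import Pool.Agent.H39.Beer.Good

/-! Independent weighted averages of independent points form a tuple with convex hull in `S` with
probability bounded below. -/

open MeasureTheory Set
open scoped ENNReal

namespace Pool.Agent.H39.Beer

variable {d : ℕ}

theorem pi_mono' {ι : Type} [Fintype ι] {α : Type} [MeasurableSpace α] {μ ν : ι → Measure α}
    (h : ∀ i, μ i ≤ ν i) : Measure.pi μ ≤ Measure.pi ν := by
  refine Measure.le_iff.2 fun s hs => ?_
  have key : OuterMeasure.pi (fun i => (μ i).toOuterMeasure) ≤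
      OuterMeasure.pi (fun i => (ν i).toOuterMeasure) := by
    refine OuterMeasure.le_boundedBy.2 fun s => ?_
    refine (OuterMeasure.boundedBy_le s).trans ?_
    exact Finset.prod_le_prod' fun i _ => h i _
  rw [Measure.pi, Measure.pi, toMeasure_apply _ _ hs, toMeasure_apply _ _ hs]
  exact key s

theorem pi_const_smul {n : ℕ} {α : Type} [MeasurableSpace α] (μ : Fin n → Measure α)
    [∀ i, IsFiniteMeasure (μ i)] {c : ℝ≥0∞} (hc : c ≠ ⊤) :
    Measure.pi (fun i => c • μ i) = c ^ n • Measure.pi μ := by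
  have : ∀ i, IsFiniteMeasure (c • μ i) := fun i => (μ i).smul_finite hc
  refine Measure.pi_eq fun s hs => ?_
  simp only [Measure.smul_apply, smul_eq_mul, Measure.pi_pi, Finset.prod_mul_distrib]
  simp

theorem wsum (k : ℕ) (i : Fin (k + 2)) :
    ∑ j, ((if i = j then (1/2 : ℝ) else 0) + 1 / (2 * (k + 2))) = 1 := by
  rw [Finset.sum_add_distrib, Finset.sum_ite_eq, if_pos (Finset.mem_univ _), Finset.sum_const,
    Finset.card_univ, Fintype.card_fin, nsmul_eq_mul]
  push_cast
  field_simp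
  norm_num

/-- The mixing map. -/
noncomputable def mix (d k : ℕ) : (Fin (k + 2) → Eu d) →ₗ[ℝ] (Fin (k + 2) → Eu d) where
  toFun e := fun i => ∑ j, ((if i = j then (1/2 : ℝ) else 0) + 1 / (2 * (k + 2))) • e j
  map_add' x y := by
    funext i
    simp [Finset.sum_add_distrib]
  map_smul' c x := by
    funext i
    simp only [Pi.smul_apply, RingHom.id_apply, Finset.smul_sum]
    refine Finset.sum_congr rfl fun j _ => ?_
    rw [smul_comm]

theorem mix_apply (d k : ℕ) (e : Fin (k + 2) → Eu d) (i) :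
    mix d k e i = ∑ j, ((if i = j then (1/2 : ℝ) else 0) + 1 / (2 * (k + 2))) • e j := rfl

theorem mix_apply' (d k : ℕ) (e : Fin (k + 2) → Eu d) (i) :
    mix d k e i = (1/2 : ℝ) • e i + (1 / (2 * (k + 2)) : ℝ) • ∑ j, e j := by
  rw [mix_apply, Finset.smul_sum]
  simp only [add_smul, Finset.sum_add_distrib]
  simp

theorem mix_det (d k : ℕ) : LinearMap.det (mix d k) ≠ 0 := by
  have hinj : Function.Injective (mix d k) := by
    rw [← LinearMap.ker_eq_bot, LinearMap.ker_eq_bot']
    intro e he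
    have h1 : ∀ i, (1/2 : ℝ) • e i + (1 / (2 * (k + 2)) : ℝ) • ∑ j, e j = 0 := fun i => by
      rw [← mix_apply', he]; rfl
    have h2 : ∑ i : Fin (k + 2), ((1/2 : ℝ) • e i + (1 / (2 * (k + 2)) : ℝ) • ∑ j, e j) = 0 :=
      Finset.sum_eq_zero fun i _ => h1 i
    rw [Finset.sum_add_distrib, ← Finset.smul_sum, Finset.sum_const, Finset.card_univ,
      Fintype.card_fin, ← Nat.cast_smul_eq_nsmul ℝ, smul_smul, ← add_smul] at h2
    have h3 : ((1:ℝ)/2 + ((k + 2 : ℕ) : ℝ) * (1 / (2 * (k + 2)))) = 1 := by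
      push_cast; field_simp; norm_num
    rw [h3, one_smul] at h2
    funext i
    have := h1 i
    rw [h2, smul_zero, add_zero] at this
    simpa using this
  intro h0
  have := LinearMap.bot_lt_ker_of_det_eq_zero h0
  rw [LinearMap.ker_eq_bot.2 hinj] at this
  exact lt_irrefl _ this

theorem pi_restrict_eq {n : ℕ} (S : Set (Eu d)) :
    (Measure.pi fun _ : Fin n => volume.restrict S) =
      (volume : Measure (Fin n → Eu d)).restrict (univ.pi fun _ => S) := by
  rw [volume_pi, Measure.restrict_pi_pi]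

theorem stepB (d k n : ℕ) {ε β : ℝ} (hε : 0 < ε) (hβ : 0 < β) : ∃ c : ℝ, 0 < c ∧
    ∀ S : Set (Eu d), MeasurableSet S → volume S = 1 →
    ∀ E0 ⊆ Cv (k + 1) S, MeasurableSet E0 →
    (Measure.pi fun _ : Fin (k + 2) => volume.restrict S) (Cv (k + 1) S \ E0) = 0 →
    ENNReal.ofReal ε ≤ (Measure.pi fun _ : Fin (k + 2) => volume.restrict S) E0 →
    ∀ τ : Fin (k + 2) → Fin (n + 1) → ℝ, (∀ i j, β ≤ τ i j) → (∀ i, ∑ j, τ i j = 1) →
    ENNReal.ofReal c ≤ (Measure.pi fun _ : Fin (k + 2) =>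
      Measure.pi fun _ : Fin (n + 1) => volume.restrict S)
      {X | (fun i => ∑ j, τ i j • X i j) ∈ E0} := by
  set β0 : ℝ := min β (1 / (2 * (k + 2))) with hβ0
  have hβ00 : 0 < β0 := by positivity
  set η : ℝ := ε / (2 * (k + 2)) with hη
  have hη0 : 0 < η := by positivity
  obtain ⟨c, hc, hgood⟩ := goodSet d k n β0 hβ00 η hη0
  set D := LinearMap.det (mix d k) with hD
  have hD0 : D ≠ 0 := mix_det d k
  refine ⟨c ^ (k + 2) * (|D| * (ε / 2)), by positivity, ?_⟩
  intro S hS hS1 E0 hE0 hE0m hnull hE0ε τ hτ hτ1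
  have := prob_restrict hS1
  choose G hGS hGm hdom hbad using fun i => hgood S hS hS1 (τ i)
    (fun j => (min_le_left _ _).trans (hτ i j)) (hτ1 i)
  set P := (Measure.pi fun _ : Fin (k + 2) => volume.restrict S) with hP
  let Es : Set (Fin (k + 2) → Eu d) := E0 ∩ {u | ∀ i, u i ∈ G i}
  have hEsm : MeasurableSet Es := by
    refine hE0m.inter ?_
    have : {u : Fin (k + 2) → Eu d | ∀ i, u i ∈ G i} = ⋂ i, {u | u i ∈ G i} := by
      ext u; simp
    rw [this]
    exact MeasurableSet.iInter fun i => (measurable_pi_apply i) (hGm i)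
  have hsubS : ∀ u ∈ Cv (k + 1) S, u ∈ univ.pi fun _ : Fin (k + 2) => S :=
    fun u hu i _ => Cv_mem' hu i
  have hPv : ∀ A : Set (Fin (k + 2) → Eu d), A ⊆ Cv (k + 1) S → P A = volume A := by
    intro A hA
    rw [hP, pi_restrict_eq, Measure.restrict_apply' (MeasurableSet.univ_pi fun _ => hS)]
    congr 1
    exact inter_eq_left.2 fun u hu => hsubS u (hA hu)
  have hPle : ∀ A : Set (Fin (k + 2) → Eu d), P A ≤ volume A := by
    intro A
    rw [hP, pi_restrict_eq]
    exact Measure.restrict_apply_le _ _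
  -- the mixed tuple
  have hcv : ∀ e ∈ Cv (k + 1) S, mix d k e ∈ Cv (k + 1) S := by
    intro e he
    refine convexHull_min ?_ (convex_convexHull ℝ (range e)) |>.trans he
    rintro _ ⟨i, rfl⟩
    rw [mem_hull_range]
    refine ⟨fun j => (if i = j then (1/2 : ℝ) else 0) + 1 / (2 * (k + 2)), ⟨fun j => ?_, ?_⟩, rfl⟩
    · have : (0:ℝ) ≤ 1 / (2 * (k + 2)) := by positivity
      show (0:ℝ) ≤ (if i = j then (1/2 : ℝ) else 0) + 1 / (2 * (k + 2))
      split_ifs <;> linarith
    · exact wsum k i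
  have hsub : E0 ⊆ ((mix d k) ⁻¹' Es ∪ ⋃ i, {e | e ∈ Cv (k + 1) S ∧
      ∑ j, ((if i = j then (1/2 : ℝ) else 0) + 1 / (2 * (k + 2))) • e j ∉ G i}) ∪
      (mix d k) ⁻¹' (Cv (k + 1) S \ E0) := by
    intro e he
    by_cases h1 : mix d k e ∈ E0
    · left
      by_cases h2 : ∀ i, mix d k e i ∈ G i
      · left; exact ⟨h1, h2⟩
      · right
        push Not at h2
        obtain ⟨i, hi⟩ := h2
        exact mem_iUnion.2 ⟨i, hE0 he, hi⟩
    · right; exact ⟨hcv e (hE0 he), h1⟩
  have hn0 : P ((mix d k) ⁻¹' (Cv (k + 1) S \ E0)) = 0 := by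
    refine le_antisymm ((hPle _).trans ?_) bot_le
    rw [Measure.addHaar_preimage_linearMap _ hD0]
    rw [← hPv _ diff_subset, hnull]; simp
  have hui : P (⋃ i, {e | e ∈ Cv (k + 1) S ∧
      ∑ j, ((if i = j then (1/2 : ℝ) else 0) + 1 / (2 * (k + 2))) • e j ∉ G i}) ≤
      ENNReal.ofReal (ε / 2) := by
    refine (measure_iUnion_le _).trans ?_
    rw [tsum_fintype]
    calc ∑ i, P {e | e ∈ Cv (k + 1) S ∧
          ∑ j, ((if i = j then (1/2 : ℝ) else 0) + 1 / (2 * (k + 2))) • e j ∉ G i}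
        ≤ ∑ _i : Fin (k + 2), ENNReal.ofReal η := by
          refine Finset.sum_le_sum fun i _ => ?_
          refine hbad i _ (fun j => ?_) ?_
          · have h1 : β0 ≤ 1 / (2 * (k + 2)) := min_le_right _ _
            split_ifs <;> linarith
          · exact wsum k i
      _ = ENNReal.ofReal (ε / 2) := by
          rw [Finset.sum_const, Finset.card_univ, Fintype.card_fin, nsmul_eq_mul,
            ← ENNReal.ofReal_natCast, ← ENNReal.ofReal_mul (by positivity)]
          congr 1
          rw [hη]; push_cast; field_simp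
  have h1 : ENNReal.ofReal ε ≤ P ((mix d k) ⁻¹' Es) + ENNReal.ofReal (ε / 2) := by
    calc ENNReal.ofReal ε ≤ P E0 := hE0ε
      _ ≤ _ := measure_mono hsub
      _ ≤ _ := measure_union_le _ _
      _ ≤ _ := by
        rw [hn0, add_zero]
        exact (measure_union_le _ _).trans (add_le_add le_rfl hui)
  have h2 : ENNReal.ofReal (ε / 2) ≤ P ((mix d k) ⁻¹' Es) := by
    have : ENNReal.ofReal ε = ENNReal.ofReal (ε / 2) + ENNReal.ofReal (ε / 2) := by
      rw [← ENNReal.ofReal_add (by positivity) (by positivity)]; congr 1; ring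
    rw [this] at h1
    exact (ENNReal.add_le_add_iff_right ENNReal.ofReal_ne_top).1 h1
  have h3 : ENNReal.ofReal (ε / 2) ≤ ENNReal.ofReal |D⁻¹| * P Es := by
    refine h2.trans ((hPle _).trans ?_)
    rw [Measure.addHaar_preimage_linearMap _ hD0, hPv Es (inter_subset_left.trans hE0)]
  have h4 : ENNReal.ofReal (|D| * (ε / 2)) ≤ P Es := by
    rw [ENNReal.ofReal_mul (abs_nonneg _)]
    calc ENNReal.ofReal |D| * ENNReal.ofReal (ε / 2)
        ≤ ENNReal.ofReal |D| * (ENNReal.ofReal |D⁻¹| * P Es) := by gcongr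
      _ = P Es := by
          rw [← mul_assoc, ← ENNReal.ofReal_mul (abs_nonneg _), ← abs_mul, mul_inv_cancel₀ hD0]
          simp
  -- domination
  have hfm : ∀ i, Measurable fun x : Fin (n + 1) → Eu d => ∑ j, τ i j • x j := fun i => by fun_prop
  have hmap : (Measure.pi fun _ : Fin (k + 2) => Measure.pi fun _ : Fin (n + 1) =>
      volume.restrict S) {X | (fun i => ∑ j, τ i j • X i j) ∈ E0} =
      Measure.pi (fun i => Measure.map (fun x : Fin (n + 1) → Eu d => ∑ j, τ i j • x j)
        (Measure.pi fun _ => volume.restrict S)) E0 := by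
    have hi : ∀ i, IsProbabilityMeasure (Measure.map (fun x : Fin (n + 1) → Eu d =>
        ∑ j, τ i j • x j) (Measure.pi fun _ => volume.restrict S)) :=
      fun i => Measure.isProbabilityMeasure_map (hfm i).aemeasurable
    have h5 := Measure.pi_map_pi (μ := fun _ : Fin (k + 2) => Measure.pi fun _ : Fin (n + 1) =>
      (volume : Measure (Eu d)).restrict S) (f := fun i x => ∑ j, τ i j • x j)
      (fun i => (hfm i).aemeasurable)
    rw [← h5, Measure.map_apply _ hE0m]
    · rfl
    · exact measurable_pi_lambda _ fun i => (hfm i).comp (measurable_pi_apply i)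
  rw [hmap]
  have hfin : ∀ i, IsFiniteMeasure ((volume : Measure (Eu d)).restrict (G i)) := fun i =>
    ⟨by simpa using (measure_mono (hGS i)).trans_lt (by rw [hS1]; exact ENNReal.one_lt_top)⟩
  refine le_trans ?_ (pi_mono' hdom E0)
  rw [pi_const_smul _ ENNReal.ofReal_ne_top, Measure.smul_apply, smul_eq_mul,
    ENNReal.ofReal_mul (by positivity), ENNReal.ofReal_pow hc.le]
  gcongr
  refine h4.trans ?_
  rw [← Measure.restrict_pi_pi, ← volume_pi, Measure.restrict_apply hE0m,
    hPv Es (inter_subset_left.trans hE0)]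
  refine measure_mono ?_
  rintro u ⟨hu1, hu2⟩
  exact ⟨hu1, fun i _ => hu2 i⟩

end Pool.Agent.H39.Beer
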